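import Pool.Agent.T6.H49.BZ.Sch
import Pool.Agent.T6.H60.BD.R

/-!
# The dimension condition and the Diophantine criterion
-/

set_option autoImplicit false

open Finset Filter Topology

namespace Pool.Agent.T6.H49.BZ

open Pool.Agent.T6.H60.BC Pool.Agent.T6.H60.BD

/-- the dimension condition -/
def DimC {r : ℕ} (w : Fin r → ℝ) (σ β : ℝ) : Prop :=
  ∀ S : Finset (Fin r), S.Nonempty → 2 * ((S.card : ℝ) - σ) ≤
    β * (Module.finrank ℚ (Submodule.span ℚ (w '' (S : Set (Fin r)))) : ℝ)

/-- comparison of products -/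
theorem maj {δ e f : ℕ → ℝ} (hδ : ∀ i, 0 ≤ δ i) (hm : Monotone δ) (he : ∀ i, 0 ≤ e i)
    (hf : ∀ i, 0 ≤ f i) : ∀ n : ℕ,
    (∀ m ≤ n, ∑ i ∈ range m, e i ≤ ∑ i ∈ range m, f i) → ∀ X : ℝ, 0 ≤ X → (∀ i < n, δ i ≤ X) →
      ∏ i ∈ range n, δ i ^ f i ≤
        X ^ (∑ i ∈ range n, f i - ∑ i ∈ range n, e i) * ∏ i ∈ range n, δ i ^ e i := by
  intro n
  induction n with
  | zero => intro _ X _ _; simp
  | succ n ih =>
    intro hE X hX hle
    have h1 := ih (fun m hmn => hE m (hmn.trans (Nat.le_succ n))) (δ n) (hδ n)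
      (fun i hi => hm hi.le)
    have hD : 0 ≤ ∑ i ∈ range n, f i - ∑ i ∈ range n, e i := by
      have := hE n (Nat.le_succ n)
      linarith
    have hD' : 0 ≤ ∑ i ∈ range (n + 1), f i - ∑ i ∈ range (n + 1), e i := by
      have := hE (n + 1) le_rfl
      linarith
    have hP : 0 ≤ ∏ i ∈ range n, δ i ^ e i :=
      Finset.prod_nonneg fun i _ => Real.rpow_nonneg (hδ i) _
    have hn0 : 0 ≤ δ n ^ f n := Real.rpow_nonneg (hδ n) _
    rw [Finset.prod_range_succ, Finset.prod_range_succ]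
    calc (∏ i ∈ range n, δ i ^ f i) * δ n ^ f n
        ≤ (δ n ^ (∑ i ∈ range n, f i - ∑ i ∈ range n, e i) * ∏ i ∈ range n, δ i ^ e i) *
            δ n ^ f n := mul_le_mul_of_nonneg_right h1 hn0
      _ = (δ n ^ (∑ i ∈ range n, f i - ∑ i ∈ range n, e i) * δ n ^ f n) *
            ∏ i ∈ range n, δ i ^ e i := by ring
      _ = (δ n ^ (∑ i ∈ range (n + 1), f i - ∑ i ∈ range (n + 1), e i) * δ n ^ e n) *
            ∏ i ∈ range n, δ i ^ e i := by
          rw [← Real.rpow_add_of_nonneg (hδ n) hD (hf n),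
            ← Real.rpow_add_of_nonneg (hδ n) hD' (he n)]
          congr 2
          rw [Finset.sum_range_succ, Finset.sum_range_succ]
          ring
      _ = δ n ^ (∑ i ∈ range (n + 1), f i - ∑ i ∈ range (n + 1), e i) *
            ((∏ i ∈ range n, δ i ^ e i) * δ n ^ e n) := by ring
      _ ≤ _ := by
          refine mul_le_mul_of_nonneg_right ?_
            (mul_nonneg hP (Real.rpow_nonneg (hδ n) _))
          exact Real.rpow_le_rpow (hδ n) (hle n (Nat.lt_succ_self n)) hD'

/-- the positions where the rank increases -/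
def grd {r : ℕ} (v : Fin r → ℝ) : Set (Fin r) :=
  {i | v i ∉ Submodule.span ℚ (v '' {j | j < i})}

lemma grd_spec {r : ℕ} (v : Fin r → ℝ) (n : ℕ) (hn : n ≤ r) :
    LinearIndepOn ℚ v {i | i ∈ grd v ∧ i.val < n} ∧
      Submodule.span ℚ (v '' {i | i ∈ grd v ∧ i.val < n}) =
        Submodule.span ℚ (v '' {i | i.val < n}) := by
  induction n with
  | zero => simp
  | succ n ih =>
    obtain ⟨h1, h2⟩ := ih (by omega)
    have hlt : {j : Fin r | j < (⟨n, by omega⟩ : Fin r)} = {i : Fin r | i.val < n} := by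
      ext j
      simp [Fin.lt_def]
    have hins : {i : Fin r | i.val < n + 1} =
        insert (⟨n, by omega⟩ : Fin r) {i : Fin r | i.val < n} := by
      ext j
      simp only [Set.mem_ofPred_eq, Set.mem_insert_iff, Fin.ext_iff]
      omega
    by_cases hB : (⟨n, by omega⟩ : Fin r) ∈ grd v
    · have hnot : v ⟨n, by omega⟩ ∉ Submodule.span ℚ (v '' {i : Fin r | i.val < n}) := by
        have : v ⟨n, by omega⟩ ∉ Submodule.span ℚ (v '' {j | j < (⟨n, by omega⟩ : Fin r)}) := hB
        rwa [hlt] at this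
      have hset : {i | i ∈ grd v ∧ i.val < n + 1} =
          insert (⟨n, by omega⟩ : Fin r) {i | i ∈ grd v ∧ i.val < n} := by
        ext j
        simp only [Set.mem_ofPred_eq, Set.mem_insert_iff]
        constructor
        · rintro ⟨h3, h4⟩
          by_cases h5 : j.val < n
          · exact Or.inr ⟨h3, h5⟩
          · left
            apply Fin.ext
            change j.val = n
            omega
        · rintro (h3 | ⟨h3, h4⟩)
          · subst h3
            exact ⟨hB, Nat.lt_succ_self n⟩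
          · exact ⟨h3, by omega⟩
      rw [hset]
      refine ⟨h1.insert (by rw [h2]; exact hnot), ?_⟩
      rw [hins, Set.image_insert_eq, Set.image_insert_eq, Submodule.span_insert,
        Submodule.span_insert, h2]
    · have hin : v ⟨n, by omega⟩ ∈ Submodule.span ℚ (v '' {i : Fin r | i.val < n}) := by
        have : ¬ v ⟨n, by omega⟩ ∉ Submodule.span ℚ (v '' {j | j < (⟨n, by omega⟩ : Fin r)}) := hB
        rw [hlt] at this
        exact not_not.1 this
      have hset : {i | i ∈ grd v ∧ i.val < n + 1} = {i | i ∈ grd v ∧ i.val < n} := by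
        ext j
        simp only [Set.mem_ofPred_eq]
        constructor
        · rintro ⟨h3, h4⟩
          refine ⟨h3, ?_⟩
          by_contra h5
          apply hB
          have : (⟨n, by omega⟩ : Fin r) = j := Fin.ext (by change n = j.val; omega)
          rw [this]
          exact h3
        · rintro ⟨h3, h4⟩
          exact ⟨h3, by omega⟩
      rw [hset]
      refine ⟨h1, ?_⟩
      rw [h2, hins, Set.image_insert_eq, Submodule.span_insert_eq_span hin]

open Classical in
/-- the indicator of `grd` on the natural numbers -/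
noncomputable def gi {r : ℕ} (v : Fin r → ℝ) (i : ℕ) : ℝ :=
  if ∃ h : i < r, (⟨i, h⟩ : Fin r) ∈ grd v then 1 else 0

lemma gi_nonneg {r : ℕ} (v : Fin r → ℝ) (i : ℕ) : 0 ≤ gi v i := by
  unfold gi
  split_ifs <;> norm_num

lemma gi_sum {r : ℕ} (v : Fin r → ℝ) (n : ℕ) (hn : n ≤ r) :
    ∑ i ∈ range n, gi v i =
      (Module.finrank ℚ (Submodule.span ℚ (v '' {i : Fin r | i.val < n})) : ℝ) := by
  classical
  obtain ⟨h1, h2⟩ := grd_spec v n hn
  have hfin : ({i : Fin r | i ∈ grd v ∧ i.val < n}).Finite := Set.toFinite _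
  have h3 : LinearIndependent ℚ (fun x : {i : Fin r | i ∈ grd v ∧ i.val < n} => v x) := h1
  have h4 := finrank_span_eq_card h3
  have h5 : Set.range (fun x : {i : Fin r | i ∈ grd v ∧ i.val < n} => v x) =
      v '' {i : Fin r | i ∈ grd v ∧ i.val < n} := by
    ext z
    simp
  rw [h5, h2] at h4
  rw [h4]
  have h6 : ∑ i ∈ range n, gi v i =
      (((range n).filter fun i => ∃ h : i < r, (⟨i, h⟩ : Fin r) ∈ grd v).card : ℝ) := by
    unfold gi
    rw [Finset.sum_ite]
    simp
  rw [h6, ← Set.toFinset_card]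
  congr 1
  symm
  refine Finset.card_bij (fun i _ => i.val) ?_ ?_ ?_
  · intro i hi
    rw [Set.mem_toFinset] at hi
    simp only [Finset.mem_filter, Finset.mem_range]
    exact ⟨hi.2, i.2, hi.1⟩
  · intro i _ j _ hij
    exact Fin.ext hij
  · intro i hi
    simp only [Finset.mem_filter, Finset.mem_range] at hi
    obtain ⟨h7, h8, h9⟩ := hi
    exact ⟨⟨i, h8⟩, Set.mem_toFinset.2 ⟨h9, h7⟩, rfl⟩

/-- the dimension condition is sufficient for algebraic weights -/
theorem perm_of_dim {r : ℕ} {w : Fin r → ℝ} (hw : ∀ i, 0 < w i) {μ : ℝ} (hμ : 0 < μ)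
    (halg : ∀ i, IsAlgebraic ℚ (w i / μ)) {σ β : ℝ} (hσ : 1 / 2 ≤ σ) (hβ : 1 ≤ β)
    (h : DimC w σ β) : PermB w (2 * σ + β) β := by
  classical
  intro ε hε
  have hβ0 : 0 < β := by linarith
  obtain ⟨c, hc, hb⟩ := sch_all hw hμ halg (div_pos hε hβ0)
  rcases Nat.eq_zero_or_pos r with hr | hr
  · subst hr
    refine ⟨1, one_pos, fun y hy => ⟨Equiv.refl _, ?_⟩⟩
    simp only [Finset.univ_eq_empty, Finset.prod_empty, one_mul]
    exact Real.rpow_le_one_of_one_le_of_nonpos hy (by linarith)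
  refine ⟨c ^ β, by positivity, fun y hy => ?_⟩
  have hy0 : 0 < y := by linarith
  set θ : ℝ := 2 * σ + β with hθ
  set π : Equiv.Perm (Fin r) := Tuple.sort fun j => nd (w j * y) with hπ
  have hsort : Monotone fun j => nd (w (π j) * y) := Tuple.monotone_sort fun j => nd (w j * y)
  refine ⟨π, ?_⟩
  set v : Fin r → ℝ := fun j => w (π j) with hv
  set δ : ℕ → ℝ := fun i => if hi : i < r then nd (v ⟨i, hi⟩ * y) else 1 with hδdef
  have hδv : ∀ i : Fin r, δ i = nd (v i * y) := fun i => by rw [hδdef]; simp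
  have hδ0 : ∀ i, 0 ≤ δ i := by
    intro i
    rw [hδdef]
    dsimp only
    split_ifs
    · exact nd_nonneg _
    · norm_num
  have hδm : Monotone δ := by
    intro i j hij
    rw [hδdef]
    dsimp only
    by_cases hj : j < r
    · rw [dif_pos hj, dif_pos (lt_of_le_of_lt hij hj)]
      exact hsort (show (⟨i, _⟩ : Fin r) ≤ ⟨j, hj⟩ from hij)
    · rw [dif_neg hj]
      split_ifs
      · exact (nd_le_half _).trans (by norm_num)
      · norm_num
  have hδ1 : ∀ i, δ i ≤ 1 := by
    intro i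
    have h1 := hδm (le_max_left i r)
    refine h1.trans (le_of_eq ?_)
    rw [hδdef]
    dsimp only
    rw [dif_neg (by simp)]
  set f : ℕ → ℝ := fun i => if i = 0 then 0 else β * gi v i with hf
  have hf0 : ∀ i, 0 ≤ f i := by
    intro i
    rw [hf]
    dsimp only
    split_ifs
    · norm_num
    · exact mul_nonneg hβ0.le (gi_nonneg v i)
  have hv0 : (⟨0, hr⟩ : Fin r) ∈ grd v := by
    have h1 : {j : Fin r | j < (⟨0, hr⟩ : Fin r)} = ∅ := by
      ext j
      simp [Fin.lt_def]
    change v ⟨0, hr⟩ ∉ Submodule.span ℚ (v '' {j | j < (⟨0, hr⟩ : Fin r)})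
    rw [h1, Set.image_empty, Submodule.span_empty, Submodule.mem_bot]
    exact (hw _).ne'
  have hgi0 : gi v 0 = 1 := by
    unfold gi
    rw [if_pos ⟨hr, hv0⟩]
  have hfsum : ∀ m : ℕ, ∑ i ∈ range (m + 1), f i = β * (∑ i ∈ range (m + 1), gi v i - 1) := by
    intro m
    rw [Finset.sum_range_succ' f, Finset.sum_range_succ' (gi v), hgi0, hf]
    simp only [Nat.succ_ne_zero, if_false, if_true]
    rw [← Finset.mul_sum]
    ring
  have hθ0 : 0 ≤ θ := by rw [hθ]; linarith
  have hE : ∀ m ≤ r, ∑ i ∈ range m, ex θ i ≤ ∑ i ∈ range m, f i := by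
    intro m hm
    rcases Nat.eq_zero_or_pos m with h0 | h0
    · subst h0; simp
    obtain ⟨m', rfl⟩ : ∃ m', m = m' + 1 := ⟨m - 1, by omega⟩
    rw [ex_sum hθ0, hfsum, gi_sum v _ hm]
    have hge : (1 : ℝ) ≤ ∑ i ∈ range (m' + 1), gi v i := by
      rw [Finset.sum_range_succ', hgi0]
      have := Finset.sum_nonneg (s := range m') (f := fun i => gi v (i + 1))
        (fun i _ => gi_nonneg v _)
      linarith
    rw [gi_sum v _ hm] at hge
    set S : Finset (Fin r) := (univ.filter fun i : Fin r => i.val < m' + 1).map π.toEmbedding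
      with hS
    have hScard : S.card = m' + 1 := by
      rw [hS, Finset.card_map]
      have h1 := Fin.card_filter_val_lt (m := m' + 1) (n := r)
      rw [min_eq_right hm] at h1
      convert h1
    have hSne : S.Nonempty := Finset.card_pos.1 (by omega)
    have hSim : w '' (S : Set (Fin r)) = v '' {i : Fin r | i.val < m' + 1} := by
      rw [hS, Finset.coe_map, ← Set.image_comp]
      simp only [Finset.coe_filter, Finset.mem_univ, true_and]
      rfl
    have h1 := h S hSne
    rw [hSim, hScard] at h1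
    refine max_le (mul_nonneg hβ0.le (by linarith)) ?_
    rw [hθ]
    push_cast at h1 ⊢
    linarith
  have hmaj := maj hδ0 hδm (ex_nonneg θ) hf0 r hE 1 zero_le_one (fun i _ => hδ1 i)
  rw [Real.one_rpow, one_mul] at hmaj
  have hR : ∏ i ∈ range r, δ i ^ ex θ i = ∏ j : Fin r, (nd (w (π j) * y)) ^ (ex θ j) := by
    rw [← Fin.prod_univ_eq_prod_range]
    exact Finset.prod_congr rfl fun i _ => by rw [hδv]
  rw [hR] at hmaj
  refine le_trans ?_ hmaj
  -- the left side
  set B : Finset (Fin r) := univ.filter fun i => i ∈ grd v with hB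
  set i0 : Fin r := ⟨0, hr⟩ with hi0
  have hi0B : i0 ∈ B := by rw [hB]; exact Finset.mem_filter.2 ⟨Finset.mem_univ _, hv0⟩
  have hBset : (B : Set (Fin r)) = {i | i ∈ grd v ∧ i.val < r} := by
    rw [hB]
    ext i
    simp
  have hBind : LinearIndepOn ℚ v (B : Set (Fin r)) := by
    rw [hBset]
    exact (grd_spec v r le_rfl).1
  set S : Finset (Fin r) := B.map π.toEmbedding with hS
  have hSind : LinearIndepOn ℚ w (S : Set (Fin r)) := by
    have h1 : LinearIndependent ℚ (fun x : (B : Set (Fin r)) => v x) := hBind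
    have hmem : ∀ x : (S : Set (Fin r)), π.symm x ∈ (B : Set (Fin r)) := by
      rintro ⟨x, hx⟩
      rw [hS, Finset.coe_map] at hx
      obtain ⟨z, hz, rfl⟩ := hx
      simpa using hz
    have h2 := h1.comp (fun x : (S : Set (Fin r)) => (⟨π.symm x, hmem x⟩ : (B : Set (Fin r))))
      (by
        intro a b hab
        have := congrArg Subtype.val hab
        exact Subtype.ext (π.symm.injective this))
    have h3 : ((fun x : (B : Set (Fin r)) => v x) ∘
        fun x : (S : Set (Fin r)) => (⟨π.symm x, hmem x⟩ : (B : Set (Fin r)))) =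
        fun x : (S : Set (Fin r)) => w x := by
      funext x
      simp [hv]
    rw [h3] at h2
    exact h2
  have hmain := hb S hSind (π i0) (Finset.mem_map_of_mem _ hi0B) y hy (by
    intro i hi
    rw [hS, Finset.mem_map] at hi
    obtain ⟨j, _, rfl⟩ := hi
    exact hsort (show i0 ≤ j from Nat.zero_le _))
  have hprod : ∏ i ∈ S.erase (π i0), nd (w i * y) = ∏ i ∈ B.erase i0, δ i := by
    have : S.erase (π i0) = (B.erase i0).map π.toEmbedding := by
      rw [hS, Finset.map_erase]
      rfl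
    rw [this, Finset.prod_map]
    exact Finset.prod_congr rfl fun i _ => by rw [hδv]; rfl
  rw [hprod] at hmain
  have hL : ∏ i ∈ range r, δ i ^ f i = (∏ i ∈ B.erase i0, δ i) ^ β := by
    rw [← Fin.prod_univ_eq_prod_range (fun i => δ i ^ f i),
      ← Real.finsetProd_rpow (B.erase i0) (fun i : Fin r => δ i) (fun i _ => hδ0 i)]
    have hgiB : ∀ i : Fin r, gi v i = if i ∈ B then 1 else 0 := by
      intro i
      unfold gi
      by_cases hi : i ∈ B
      · rw [if_pos hi, if_pos ⟨i.2, (Finset.mem_filter.1 hi).2⟩]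
      · rw [if_neg hi, if_neg]
        rintro ⟨_, h2⟩
        exact hi (Finset.mem_filter.2 ⟨Finset.mem_univ _, h2⟩)
    calc ∏ i : Fin r, δ i ^ f i = ∏ i ∈ B.erase i0, δ i ^ f i := by
          refine (Finset.prod_subset (Finset.subset_univ _) fun i _ hi => ?_).symm
          have hfi : f i = 0 := by
            rw [hf]
            dsimp only
            by_cases h0 : (i : ℕ) = 0
            · rw [if_pos h0]
            · rw [if_neg h0, hgiB, if_neg, mul_zero]
              intro hiB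
              apply hi
              refine Finset.mem_erase.2 ⟨?_, hiB⟩
              intro h1
              apply h0
              rw [h1]
          rw [hfi, Real.rpow_zero]
      _ = ∏ i ∈ B.erase i0, δ i ^ β := by
          refine Finset.prod_congr rfl fun i hi => ?_
          have h1 := Finset.ne_of_mem_erase hi
          have h2 : (i : ℕ) ≠ 0 := fun h3 => h1 (Fin.ext h3)
          have hfi : f i = β := by
            rw [hf]
            dsimp only
            rw [if_neg h2, hgiB, if_pos (Finset.mem_of_mem_erase hi), mul_one]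
          rw [hfi]
  rw [hL]
  calc c ^ β * y ^ (-β - ε) = (c * y ^ (-1 - ε / β)) ^ β := by
        rw [Real.mul_rpow hc.le (by positivity), ← Real.rpow_mul hy0.le]
        congr 2
        field_simp
    _ ≤ _ := Real.rpow_le_rpow (by positivity) hmain hβ0.le

/-! ### necessity -/

lemma nd_int (n : ℤ) : nd (n : ℝ) = 0 := by
  have h := nd_le_sub (n : ℝ) n
  rw [sub_self, abs_zero] at h
  exact le_antisymm h (nd_nonneg _)

lemma nd_sum_int {ι : Type} (s : Finset ι) (a : ι → ℤ) (x : ι → ℝ) :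
    nd (∑ k ∈ s, (a k : ℝ) * x k) ≤ ∑ k ∈ s, |(a k : ℝ)| * nd (x k) := by
  have h := nd_le_sub (∑ k ∈ s, (a k : ℝ) * x k) (∑ k ∈ s, a k * round (x k))
  refine h.trans ?_
  push_cast
  rw [← Finset.sum_sub_distrib]
  refine (Finset.abs_sum_le_sum_abs _ _).trans (Finset.sum_le_sum fun k _ => ?_)
  rw [← mul_sub, abs_mul]
  exact le_rfl

/-- simultaneous approximation -/
theorem dirichlet {ι : Type} [Fintype ι] (θ : ι → ℝ) {Q : ℕ} (hQ : 1 ≤ Q) :
    ∃ q : ℕ, 1 ≤ q ∧ q ≤ Q ^ (Fintype.card ι) ∧ ∀ i, nd (q * θ i) ≤ 1 / Q := by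
  classical
  have hQ0 : (0 : ℝ) < Q := by exact_mod_cast hQ
  have hlt : ∀ x : ℝ, ⌊(Q : ℝ) * Int.fract x⌋₊ < Q := by
    intro x
    rw [Nat.floor_lt (mul_nonneg hQ0.le (Int.fract_nonneg x))]
    have := Int.fract_lt_one x
    nlinarith
  set f : Fin (Q ^ (Fintype.card ι) + 1) → (ι → Fin Q) := fun q i =>
    ⟨⌊(Q : ℝ) * Int.fract ((q : ℕ) * θ i)⌋₊, hlt _⟩ with hf
  have hcard : Fintype.card (ι → Fin Q) < Fintype.card (Fin (Q ^ (Fintype.card ι) + 1)) := by
    rw [Fintype.card_fun, Fintype.card_fin, Fintype.card_fin]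
    exact Nat.lt_succ_self _
  obtain ⟨p, q, hne, hpq⟩ := Fintype.exists_ne_map_eq_of_card_lt f hcard
  wlog hlt' : (p : ℕ) < q with H
  · have h1 : (p : ℕ) ≠ q := fun h => hne (Fin.ext h)
    exact H θ hQ hQ0 hlt hf hcard q p hne.symm hpq.symm (by omega)
  refine ⟨q - p, by omega, by have := q.2; omega, fun i => ?_⟩
  have h1 : ⌊(Q : ℝ) * Int.fract ((p : ℕ) * θ i)⌋₊ = ⌊(Q : ℝ) * Int.fract ((q : ℕ) * θ i)⌋₊ := by
    have := congrArg Fin.val (congrFun hpq i)
    exact this
  set u := Int.fract ((p : ℕ) * θ i) with hu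
  set v := Int.fract ((q : ℕ) * θ i) with hv
  have hu0 : 0 ≤ (Q : ℝ) * u := mul_nonneg hQ0.le (Int.fract_nonneg _)
  have hv0 : 0 ≤ (Q : ℝ) * v := mul_nonneg hQ0.le (Int.fract_nonneg _)
  have h2 := Nat.floor_le hu0
  have h3 := Nat.lt_floor_add_one ((Q : ℝ) * u)
  have h4 := Nat.floor_le hv0
  have h5 := Nat.lt_floor_add_one ((Q : ℝ) * v)
  rw [h1] at h2 h3
  have h6 := nd_le_sub (((q - p : ℕ) : ℝ) * θ i) (⌊(q : ℕ) * θ i⌋ - ⌊(p : ℕ) * θ i⌋)
  refine h6.trans ?_
  have h7 : ((q - p : ℕ) : ℝ) * θ i - ((⌊(q : ℕ) * θ i⌋ - ⌊(p : ℕ) * θ i⌋ : ℤ) : ℝ) = v - u := by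
    rw [Nat.cast_sub hlt'.le, hu, hv, Int.fract, Int.fract]
    push_cast
    ring
  rw [h7, abs_le, le_div_iff₀ hQ0, neg_le_iff_add_nonneg]
  constructor
  · have : 0 ≤ (v - u + 1 / Q) * Q := by
      have : (v - u + 1 / Q) * Q = Q * v - Q * u + 1 := by field_simp
      rw [this]
      linarith
    exact nonneg_of_mul_nonneg_left this hQ0
  · have : (v - u) * Q = Q * v - Q * u := by ring
    rw [this]
    linarith

/-- good approximations for a set of weights -/
theorem approx {r : ℕ} {w : Fin r → ℝ} (hw : ∀ i, 0 < w i) (S : Finset (Fin r))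
    (hS : S.Nonempty) : ∃ (m : ℕ) (C : ℝ), 0 < C ∧
      Module.finrank ℚ (Submodule.span ℚ (w '' (S : Set (Fin r)))) = m + 1 ∧
      ∀ Q : ℕ, 1 ≤ Q → ∃ y : ℝ, 1 ≤ y ∧ y ≤ C * (Q : ℝ) ^ m ∧ ∀ j ∈ S, nd (w j * y) ≤ C / Q := by
  classical
  set V : Submodule ℚ ℝ := Submodule.span ℚ (w '' (S : Set (Fin r))) with hV
  have hfin : Module.Finite ℚ V := by
    rw [hV]
    exact FiniteDimensional.span_of_finite ℚ (Set.toFinite _)
  set b := Module.finBasis ℚ V with hb
  have hVpos : 0 < Module.finrank ℚ V := by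
    obtain ⟨j, hj⟩ := hS
    have hmem : w j ∈ V := Submodule.subset_span ⟨j, hj, rfl⟩
    have : Nontrivial V := ⟨⟨⟨w j, hmem⟩, 0, fun h => (hw j).ne' (congrArg Subtype.val h)⟩⟩
    exact Module.finrank_pos
  set k0 : Fin (Module.finrank ℚ V) := ⟨0, hVpos⟩ with hk0
  set β0 : ℝ := |(b k0 : ℝ)| with hβ0
  have hβpos : 0 < β0 := by
    rw [hβ0, abs_pos]
    intro h
    exact b.ne_zero k0 (Subtype.ext h)
  have hmemS : ∀ j ∈ S, w j ∈ V := fun j hj => Submodule.subset_span ⟨j, hj, rfl⟩
  set cf : Fin r → Fin (Module.finrank ℚ V) → ℚ := fun j k =>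
    if h : w j ∈ V then b.repr ⟨w j, h⟩ k else 0 with hcf
  have hexp : ∀ j ∈ S, w j = ∑ k, (cf j k : ℝ) * (b k : ℝ) := by
    intro j hj
    have h1 := b.sum_repr ⟨w j, hmemS j hj⟩
    have h2 := congrArg (Submodule.subtype V) h1
    rw [map_sum] at h2
    simp only [map_smul, Submodule.subtype_apply] at h2
    rw [← h2]
    refine Finset.sum_congr rfl fun k _ => ?_
    rw [hcf]
    dsimp only
    rw [dif_pos (hmemS j hj), Rat.smul_def]
  set D0 : ℕ := ∏ j, ∏ k, (cf j k).den with hD0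
  have hD0pos : 0 < D0 := by
    rw [hD0]
    exact Finset.prod_pos fun j _ => Finset.prod_pos fun k _ => (cf j k).den_pos
  obtain ⟨N, hN⟩ := exists_nat_ge (max 1 β0)
  have hN1 : (1 : ℝ) ≤ N := (le_max_left _ _).trans hN
  have hN2 : β0 ≤ N := (le_max_right _ _).trans hN
  set D : ℕ := D0 * N with hD
  have hDint : ∀ j k, ∃ a : ℤ, (D : ℝ) * (cf j k : ℝ) = a := by
    intro j k
    have h1 : (cf j k).den ∣ D := by
      rw [hD, hD0]
      exact Dvd.dvd.mul_right ((Finset.dvd_prod_of_mem (fun k => (cf j k).den)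
        (Finset.mem_univ k)).trans (Finset.dvd_prod_of_mem (fun j => ∏ k, (cf j k).den)
          (Finset.mem_univ j))) N
    obtain ⟨e, he⟩ := h1
    refine ⟨e * (cf j k).num, ?_⟩
    have h2 : (cf j k : ℝ) * (cf j k).den = (cf j k).num := by
      exact_mod_cast Rat.mul_den_eq_num (cf j k)
    rw [he]
    push_cast
    calc ((cf j k).den : ℝ) * e * (cf j k : ℝ) = e * ((cf j k : ℝ) * (cf j k).den) := by ring
      _ = _ := by rw [h2]
  choose a ha using hDint
  have hDβ : β0 ≤ D := by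
    rw [hD]
    push_cast
    have : (1 : ℝ) ≤ D0 := by exact_mod_cast hD0pos
    nlinarith
  have hD0' : (0 : ℝ) < D := lt_of_lt_of_le hβpos hDβ
  set m : ℕ := Module.finrank ℚ V - 1 with hm
  set A : ℝ := ∑ j, ∑ k, |(a j k : ℝ)| with hA
  have hA0 : 0 ≤ A := Finset.sum_nonneg fun j _ => Finset.sum_nonneg fun k _ => abs_nonneg _
  refine ⟨m, max (D / β0) (A + 1), lt_max_of_lt_left (by positivity), by omega, fun Q hQ => ?_⟩
  have hQ0 : (0 : ℝ) < Q := by exact_mod_cast hQ
  have hQ1 : (1 : ℝ) ≤ Q := by exact_mod_cast hQ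
  obtain ⟨q, hq1, hq2, hq3⟩ := dirichlet
    (fun k : {k : Fin (Module.finrank ℚ V) // k ≠ k0} => (b k : ℝ) / β0) hQ
  have hcard : Fintype.card {k : Fin (Module.finrank ℚ V) // k ≠ k0} = m := by
    rw [Fintype.card_subtype_compl, Fintype.card_fin, Fintype.card_subtype_eq]
  rw [hcard] at hq2
  have hq3' : ∀ k, nd (q * ((b k : ℝ) / β0)) ≤ 1 / Q := by
    intro k
    by_cases hk : k = k0
    · subst hk
      have h1 : (b k0 : ℝ) / β0 = 1 ∨ (b k0 : ℝ) / β0 = -1 := by
        rcases abs_choice (b k0 : ℝ) with h | h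
        · left
          rw [hβ0, h]
          exact div_self (by rw [hβ0, h] at hβpos; exact hβpos.ne')
        · right
          rw [hβ0, h]
          have h3 : (b k0 : ℝ) ≠ 0 := by
            intro h4
            rw [hβ0, h4, abs_zero] at hβpos
            exact lt_irrefl _ hβpos
          field_simp
      have h2 : nd (q * ((b k0 : ℝ) / β0)) = 0 := by
        rcases h1 with h | h
        · rw [h, mul_one]
          exact_mod_cast nd_int q
        · rw [h]
          have := nd_int (-(q : ℤ))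
          push_cast at this
          rw [mul_neg_one]
          exact this
      rw [h2]
      positivity
    · exact hq3 ⟨k, hk⟩
  refine ⟨D * q / β0, ?_, ?_, fun j hj => ?_⟩
  · rw [le_div_iff₀ hβpos, one_mul]
    have : (1 : ℝ) ≤ q := by exact_mod_cast hq1
    nlinarith
  · have h1 : (q : ℝ) ≤ (Q : ℝ) ^ m := by exact_mod_cast hq2
    calc (D : ℝ) * q / β0 = D / β0 * q := by ring
      _ ≤ max (D / β0) (A + 1) * (Q : ℝ) ^ m :=
          mul_le_mul (le_max_left _ _) h1 (by positivity) (by positivity)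
  · have h1 : w j * (D * q / β0) = ∑ k, (a j k : ℝ) * (q * ((b k : ℝ) / β0)) := by
      rw [hexp j hj, Finset.sum_mul]
      refine Finset.sum_congr rfl fun k _ => ?_
      rw [← ha j k]
      ring
    rw [h1]
    calc nd (∑ k, (a j k : ℝ) * (q * ((b k : ℝ) / β0)))
        ≤ ∑ k, |(a j k : ℝ)| * nd (q * ((b k : ℝ) / β0)) := nd_sum_int _ _ _
      _ ≤ ∑ k, |(a j k : ℝ)| * (1 / Q) :=
          Finset.sum_le_sum fun k _ => mul_le_mul_of_nonneg_left (hq3' k) (abs_nonneg _)
      _ = (∑ k, |(a j k : ℝ)|) * (1 / Q) := by rw [Finset.sum_mul]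
      _ ≤ A * (1 / Q) := by
          refine mul_le_mul_of_nonneg_right ?_ (by positivity)
          exact Finset.single_le_sum (f := fun j => ∑ k, |(a j k : ℝ)|)
            (fun j _ => Finset.sum_nonneg fun k _ => abs_nonneg _) (Finset.mem_univ j)
      _ ≤ max (D / β0) (A + 1) / Q := by
          rw [mul_one_div]
          gcongr
          exact (by linarith : A ≤ A + 1).trans (le_max_right _ _)

lemma ex_mono (θ : ℝ) : Monotone (ex θ) := by
  intro i j hij
  unfold ex
  have : (i : ℝ) ≤ j := by exact_mod_cast hij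
  exact min_le_min le_rfl (max_le_max le_rfl (by linarith))

lemma sum_range_le {g : ℕ → ℝ} (hg : Monotone g) (J : Finset ℕ) :
    ∑ i ∈ range J.card, g i ≤ ∑ i ∈ J, g i := by
  classical
  induction J using Finset.induction_on_max with
  | empty => simp
  | insert a s hs ih =>
    have ha : a ∉ s := fun h => lt_irrefl _ (hs a h)
    rw [Finset.card_insert_of_notMem ha, Finset.sum_range_succ, Finset.sum_insert ha]
    have h1 : s ⊆ range a := fun x hx => Finset.mem_range.2 (hs x hx)
    have h2 : s.card ≤ a := by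
      have := Finset.card_le_card h1
      rwa [Finset.card_range] at this
    have h3 := hg h2
    linarith

/-- the dimension condition is necessary for all weights -/
theorem dim_of_perm {r : ℕ} {w : Fin r → ℝ} (hw : ∀ i, 0 < w i) {σ β : ℝ} (hσ : 1 / 2 ≤ σ)
    (hβ : 1 ≤ β) (h : PermB w (2 * σ + β) β) : DimC w σ β := by
  classical
  intro S hS
  obtain ⟨m, C, hC, hm, happ⟩ := approx hw S hS
  rw [hm]
  push_cast
  set θ : ℝ := 2 * σ + β with hθ
  set E : ℝ := max 0 (2 * (S.card : ℝ) - θ) with hE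
  have hE0 : 0 ≤ E := le_max_left _ _
  have key : ∀ ε : ℝ, 0 < ε → E ≤ m * (β + ε) := by
    intro ε hε
    obtain ⟨c, hc, hb⟩ := h ε hε
    by_contra hcon
    rw [not_le] at hcon
    -- the inequality for all large `Q`
    have hlim : Tendsto (fun Q : ℕ => (C ^ E / (c * C ^ (-β - ε))) *
        (Q : ℝ) ^ (-(E - m * (β + ε)))) atTop (𝓝 0) := by
      have h1 : Tendsto (fun Q : ℕ => (Q : ℝ) ^ (-(E - m * (β + ε)))) atTop (𝓝 0) :=
        (tendsto_rpow_neg_atTop (by linarith)).comp tendsto_natCast_atTop_atTop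
      have h2 := h1.const_mul (C ^ E / (c * C ^ (-β - ε)))
      rwa [mul_zero] at h2
    obtain ⟨N, hN⟩ := exists_nat_ge C
    obtain ⟨Q, hQ1, hQ2, hQ3⟩ := ((hlim.eventually (gt_mem_nhds one_pos)).and
      ((eventually_ge_atTop 1).and (eventually_ge_atTop N))).exists
    have hQ0 : (0 : ℝ) < Q := by exact_mod_cast hQ2
    have hCQ : C / Q ≤ 1 := by
      rw [div_le_one hQ0]
      exact hN.trans (by exact_mod_cast hQ3)
    have hCQ0 : 0 < C / Q := by positivity
    obtain ⟨y, hy1, hy2, hy3⟩ := happ Q hQ2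
    have hy0 : 0 < y := by linarith
    obtain ⟨π, hπ⟩ := hb y hy1
    set J : Finset (Fin r) := univ.filter fun j => π j ∈ S with hJ
    have hJcard : J.card = S.card := by
      have : J.map π.toEmbedding = S := by
        ext x
        rw [Finset.mem_map]
        constructor
        · rintro ⟨z, hz, rfl⟩
          exact (Finset.mem_filter.1 hz).2
        · intro hx
          refine ⟨π.symm x, Finset.mem_filter.2 ⟨Finset.mem_univ _, ?_⟩, ?_⟩
          · simpa using hx
          · simp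
      rw [← this, Finset.card_map]
    have h1 : ∏ j : Fin r, (nd (w (π j) * y)) ^ (ex θ j) ≤ (C / Q) ^ E := by
      have h2 : ∏ j : Fin r, (nd (w (π j) * y)) ^ (ex θ j) ≤
          ∏ j ∈ J, (nd (w (π j) * y)) ^ (ex θ j) := by
        rw [← Finset.prod_filter_mul_prod_filter_not univ (fun j => π j ∈ S)]
        refine mul_le_of_le_one_right (Finset.prod_nonneg fun j _ =>
          Real.rpow_nonneg (nd_nonneg _) _) ?_
        refine Finset.prod_le_one (fun j _ => Real.rpow_nonneg (nd_nonneg _) _) fun j _ => ?_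
        exact Real.rpow_le_one (nd_nonneg _) ((nd_le_half _).trans (by norm_num)) (ex_nonneg _ _)
      have h3 : ∏ j ∈ J, (nd (w (π j) * y)) ^ (ex θ j) ≤ ∏ j ∈ J, (C / Q) ^ (ex θ j) := by
        refine Finset.prod_le_prod (fun j _ => Real.rpow_nonneg (nd_nonneg _) _) fun j hj => ?_
        exact Real.rpow_le_rpow (nd_nonneg _) (hy3 _ (Finset.mem_filter.1 hj).2) (ex_nonneg _ _)
      have h4 : ∏ j ∈ J, (C / Q) ^ (ex θ j) = (C / Q) ^ (∑ j ∈ J, ex θ j) :=
        (Real.rpow_sum_of_pos hCQ0 _ _).symm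
      have h5 : E ≤ ∑ j ∈ J, ex θ j := by
        have h6 := sum_range_le (ex_mono θ) (J.map Fin.valEmbedding)
        rw [Finset.card_map, hJcard, Finset.sum_map, ex_sum (by rw [hθ]; linarith)] at h6
        exact h6
      calc _ ≤ _ := h2
        _ ≤ _ := h3
        _ = _ := h4
        _ ≤ (C / Q) ^ E := Real.rpow_le_rpow_of_exponent_ge hCQ0 hCQ h5
    have h2 : c * (C * (Q : ℝ) ^ m) ^ (-β - ε) ≤ (C / Q) ^ E := by
      refine le_trans ?_ (hπ.trans h1)
      refine mul_le_mul_of_nonneg_left ?_ hc.le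
      exact Real.rpow_le_rpow_of_nonpos hy0 hy2 (by linarith)
    have h3 : (C * (Q : ℝ) ^ m) ^ (-β - ε) = C ^ (-β - ε) * (Q : ℝ) ^ (-(m * (β + ε))) := by
      rw [Real.mul_rpow hC.le (by positivity), ← Real.rpow_natCast, ← Real.rpow_mul hQ0.le]
      congr 2
      ring
    have h4 : (C / Q) ^ E = C ^ E * (Q : ℝ) ^ (-E) := by
      rw [Real.div_rpow hC.le hQ0.le, Real.rpow_neg hQ0.le, div_eq_mul_inv]
    rw [h3, h4] at h2
    have h5 : (Q : ℝ) ^ (-(E - m * (β + ε))) = (Q : ℝ) ^ (-E) * (Q : ℝ) ^ (m * (β + ε)) := by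
      rw [← Real.rpow_add hQ0]
      congr 1
      ring
    have h6 : (Q : ℝ) ^ (-(m * (β + ε))) * (Q : ℝ) ^ (m * (β + ε)) = 1 := by
      rw [← Real.rpow_add hQ0]
      simp
    rw [h5] at hQ1
    have hpos : 0 < c * C ^ (-β - ε) := by positivity
    have h7 : c * C ^ (-β - ε) ≤ C ^ E * ((Q : ℝ) ^ (-E) * (Q : ℝ) ^ (m * (β + ε))) := by
      have hq : 0 ≤ (Q : ℝ) ^ (m * (β + ε)) := by positivity
      have := mul_le_mul_of_nonneg_right h2 hq
      calc c * C ^ (-β - ε) = c * (C ^ (-β - ε) * (Q : ℝ) ^ (-(m * (β + ε)))) *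
            (Q : ℝ) ^ (m * (β + ε)) := by
            calc c * C ^ (-β - ε) = c * C ^ (-β - ε) *
                  ((Q : ℝ) ^ (-(m * (β + ε))) * (Q : ℝ) ^ (m * (β + ε))) := by rw [h6, mul_one]
              _ = _ := by ring
        _ ≤ _ := this
        _ = _ := by ring
    have h8 : 1 ≤ C ^ E / (c * C ^ (-β - ε)) * ((Q : ℝ) ^ (-E) * (Q : ℝ) ^ (m * (β + ε))) := by
      rw [div_mul_eq_mul_div, le_div_iff₀ hpos, one_mul]
      exact h7
    linarith
  have h1 : E ≤ m * β := by
    refine le_of_forall_pos_le_add fun e he => ?_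
    have h2 := key (e / (m + 1)) (by positivity)
    have h3 : (m : ℝ) * (e / (m + 1)) ≤ e := by
      rw [mul_div_assoc', div_le_iff₀ (by positivity)]
      nlinarith
    calc E ≤ m * (β + e / (m + 1)) := h2
      _ = m * β + m * (e / (m + 1)) := by ring
      _ ≤ _ := by linarith
  have h2 : 2 * (S.card : ℝ) - θ ≤ E := le_max_right _ _
  rw [hθ] at h2
  linarith

end Pool.Agent.T6.H49.BZ
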