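import Mathlib

/-!
# Interpolation between a mean square bound and a pointwise bound on two vertical lines
-/

set_option autoImplicit false

open MeasureTheory Complex Set Filter Topology

namespace Pool.Agent.T6.H49.BZ

/-- differentiation under the integral sign -/
lemma param_diff {U : Set ℂ} (hU : IsOpen U) {G G' : ℂ → ℝ → ℂ}
    (hd : ∀ s ∈ U, ∀ x : ℝ, HasDerivAt (fun z => G z x) (G' s x) s)
    (hc : ∀ s ∈ U, Continuous (G s))
    (hc' : ContinuousOn (fun p : ℂ × ℝ => G' p.1 p.2) (U ×ˢ univ)) (a b : ℝ) :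
    ∀ s ∈ U, DifferentiableAt ℂ (fun z => ∫ x in a..b, G z x) s := by
  intro s hs
  obtain ⟨ρ, hρ, hball⟩ := Metric.isOpen_iff.1 hU s hs
  have hcl : Metric.closedBall s (ρ / 2) ⊆ U :=
    (Metric.closedBall_subset_ball (by linarith)).trans hball
  have hbl : Metric.ball s (ρ / 2) ⊆ U := Metric.ball_subset_closedBall.trans hcl
  have hK : IsCompact (Metric.closedBall s (ρ / 2) ×ˢ uIcc a b) :=
    (isCompact_closedBall _ _).prod isCompact_uIcc
  obtain ⟨M, hM⟩ := hK.exists_bound_of_continuousOn (hc'.mono (prod_mono hcl (subset_univ _)))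
  have hcs' : Continuous (G' s) := by
    have h1 : ContinuousOn (fun x : ℝ => ((s, x) : ℂ × ℝ)) univ := by fun_prop
    have h2 := hc'.comp h1 (fun x _ => ⟨hs, mem_univ x⟩)
    rw [← continuousOn_univ]
    exact h2
  have key := intervalIntegral.hasDerivAt_integral_of_dominated_loc_of_deriv_le (μ := volume)
    (F := G) (F' := G') (x₀ := s) (s := Metric.ball s (ρ / 2)) (a := a) (b := b)
    (bound := fun _ => M) (Metric.ball_mem_nhds _ (by linarith))
    (by
      filter_upwards [hU.mem_nhds hs] with z hz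
      exact (hc z hz).aestronglyMeasurable)
    ((hc s hs).intervalIntegrable _ _)
    hcs'.aestronglyMeasurable
    (ae_of_all _ fun t ht z hz => hM (z, t) ⟨Metric.ball_subset_closedBall hz, uIoc_subset_uIcc ht⟩)
    (by simp)
    (ae_of_all _ fun t _ z hz => hd z (hbl hz) t)
  exact key.2.differentiableAt

/-- the maximum of `exp (K |x| - 2 x ^ 2)` -/
lemma exp_lin_le (K x : ℝ) : Real.exp (K * |x|) * Real.exp (-(2 * x ^ 2)) ≤ Real.exp (K ^ 2) := by
  rw [← Real.exp_add]
  apply Real.exp_le_exp.2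
  have : x ^ 2 = |x| ^ 2 := (sq_abs x).symm
  rw [this]
  nlinarith [sq_nonneg (K - 2 * |x|), sq_nonneg K, sq_nonneg |x|]

lemma exp_lin_le' (K x : ℝ) : Real.exp (K * |x|) * Real.exp (-x ^ 2) ≤ Real.exp (K ^ 2) := by
  rw [← Real.exp_add]
  apply Real.exp_le_exp.2
  have : x ^ 2 = |x| ^ 2 := (sq_abs x).symm
  rw [this]
  nlinarith [sq_nonneg (K - 2 * |x|), sq_nonneg K, sq_nonneg |x|]

/-- the mean square over a shifted interval -/
lemma shifted {g : ℝ → ℝ} (hg : Continuous g) (h0 : ∀ t, 0 ≤ g t) {C₀ A B : ℝ} (hC₀ : 0 ≤ C₀)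
    (hA : 0 ≤ A) (hB : 0 ≤ B) (hgr : ∀ t, g t ≤ C₀ * Real.exp (C₀ * |t|))
    (hms : ∀ T : ℝ, 1 ≤ T → ∫ t in (1 : ℝ)..T, g t ≤ A * T ^ B) {T : ℝ} (hT : 1 ≤ T) (τ : ℝ) :
    Real.exp (-(2 * τ ^ 2)) * ∫ x in (1 : ℝ)..T, g (τ + x) ≤
      (C₀ * Real.exp C₀ * Real.exp ((C₀ + 1) ^ 2) + A * Real.exp (B ^ 2)) * T ^ B := by
  have hT0 : 0 < T := by linarith
  have hTB : 1 ≤ T ^ B := Real.one_le_rpow hT hB
  have hτ := abs_nonneg τ
  have hii : ∀ u v : ℝ, IntervalIntegrable g volume u v := fun u v => hg.intervalIntegrable u v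
  have h1 : ∫ x in (1 : ℝ)..T, g (τ + x) = ∫ x in (τ + 1)..(τ + T), g x := by
    rw [intervalIntegral.integral_comp_add_left]
  have h2 : ∫ x in (τ + 1)..(τ + T), g x ≤ ∫ x in (1 - |τ|)..(T + |τ|), g x := by
    apply intervalIntegral.integral_mono_interval
    · have := neg_abs_le τ
      linarith
    · linarith
    · have := le_abs_self τ
      linarith
    · exact ae_of_all _ fun t => h0 t
    · exact hii _ _
  have h3 : ∫ x in (1 - |τ|)..(T + |τ|), g x =
      (∫ x in (1 - |τ|)..1, g x) + ∫ x in (1 : ℝ)..(T + |τ|), g x :=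
    (intervalIntegral.integral_add_adjacent_intervals (hii _ _) (hii _ _)).symm
  have h4 : ∫ x in (1 - |τ|)..1, g x ≤ |τ| * (C₀ * Real.exp (C₀ * (1 + |τ|))) := by
    have h5 : ∫ x in (1 - |τ|)..1, g x ≤ ∫ x in (1 - |τ|)..1, C₀ * Real.exp (C₀ * (1 + |τ|)) := by
      apply intervalIntegral.integral_mono_on (by linarith) (hii _ _) (by simp)
      intro x hx
      refine (hgr x).trans ?_
      have h6 : |x| ≤ 1 + |τ| := abs_le.2 ⟨by linarith [hx.1], by linarith [hx.2]⟩
      gcongr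
    rw [intervalIntegral.integral_const, smul_eq_mul] at h5
    have e : (1 - (1 - |τ|)) = |τ| := by ring
    rw [e] at h5
    exact h5
  have h5 : ∫ x in (1 : ℝ)..(T + |τ|), g x ≤ A * (T ^ B * Real.exp (B * |τ|)) := by
    refine (hms _ (by linarith)).trans ?_
    gcongr
    have h6 : T + |τ| ≤ T * (1 + |τ|) := by nlinarith
    have h7 : (T + |τ|) ^ B ≤ (T * (1 + |τ|)) ^ B := Real.rpow_le_rpow (by linarith) h6 hB
    refine h7.trans ?_
    rw [Real.mul_rpow hT0.le (by linarith)]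
    gcongr
    have h8 : 1 + |τ| ≤ Real.exp |τ| := by linarith [Real.add_one_le_exp |τ|]
    calc (1 + |τ|) ^ B ≤ (Real.exp |τ|) ^ B := Real.rpow_le_rpow (by linarith) h8 hB
      _ = Real.exp (B * |τ|) := by rw [← Real.exp_mul, mul_comm]
  have h6 : |τ| * (C₀ * Real.exp (C₀ * (1 + |τ|))) ≤
      C₀ * Real.exp C₀ * Real.exp ((C₀ + 1) * |τ|) := by
    have h7 : |τ| ≤ Real.exp |τ| := by linarith [Real.add_one_le_exp |τ|]
    have h8 : Real.exp (C₀ * (1 + |τ|)) = Real.exp C₀ * Real.exp (C₀ * |τ|) := by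
      rw [← Real.exp_add]; congr 1; ring
    have h9 : Real.exp ((C₀ + 1) * |τ|) = Real.exp (C₀ * |τ|) * Real.exp |τ| := by
      rw [← Real.exp_add]; congr 1; ring
    rw [h8, h9]
    have h10 : 0 ≤ C₀ * (Real.exp C₀ * Real.exp (C₀ * |τ|)) := by positivity
    calc |τ| * (C₀ * (Real.exp C₀ * Real.exp (C₀ * |τ|)))
        ≤ Real.exp |τ| * (C₀ * (Real.exp C₀ * Real.exp (C₀ * |τ|))) :=
          mul_le_mul_of_nonneg_right h7 h10
      _ = _ := by ring
  have e0 : 0 < Real.exp (-(2 * τ ^ 2)) := Real.exp_pos _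
  have hE1 := exp_lin_le (C₀ + 1) τ
  have hE2 := exp_lin_le B τ
  calc Real.exp (-(2 * τ ^ 2)) * ∫ x in (1 : ℝ)..T, g (τ + x)
      ≤ Real.exp (-(2 * τ ^ 2)) * (C₀ * Real.exp C₀ * Real.exp ((C₀ + 1) * |τ|) +
          A * (T ^ B * Real.exp (B * |τ|))) := by
        apply mul_le_mul_of_nonneg_left _ e0.le
        rw [h1]
        refine h2.trans ?_
        rw [h3]
        exact add_le_add (h4.trans h6) h5
    _ = C₀ * Real.exp C₀ * (Real.exp ((C₀ + 1) * |τ|) * Real.exp (-(2 * τ ^ 2))) +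
          A * T ^ B * (Real.exp (B * |τ|) * Real.exp (-(2 * τ ^ 2))) := by ring
    _ ≤ C₀ * Real.exp C₀ * Real.exp ((C₀ + 1) ^ 2) + A * T ^ B * Real.exp (B ^ 2) := by
        gcongr
    _ ≤ C₀ * Real.exp C₀ * Real.exp ((C₀ + 1) ^ 2) * T ^ B + A * T ^ B * Real.exp (B ^ 2) := by
        have h7 : 0 ≤ C₀ * Real.exp C₀ * Real.exp ((C₀ + 1) ^ 2) := by positivity
        nlinarith
    _ = _ := by ring

/-- Cauchy–Schwarz -/
lemma cs_bound {u v : ℝ → ℝ} (hu : Continuous u) (hv : Continuous v) {T e D X : ℝ} (hT : 1 ≤ T)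
    (hD : 0 < D) (hX : 0 < X)
    (hu2 : e ^ 2 * ∫ x in (1 : ℝ)..T, u x ^ 2 ≤ D) (hv2 : ∫ x in (1 : ℝ)..T, v x ^ 2 ≤ X) :
    e * ∫ x in (1 : ℝ)..T, u x * v x ≤ √(D * X) := by
  set L : ℝ := √(D * X) with hL
  have hL0 : 0 < L := Real.sqrt_pos.2 (by positivity)
  have hLL : L * L = D * X := Real.mul_self_sqrt (by positivity)
  -- `L / D = λ`
  have hpt : ∀ x, e * (u x * v x) ≤ (L / D * (e ^ 2 * u x ^ 2) + L / X * v x ^ 2) / 2 := by
    intro x
    have h3 : 0 < L / D := by positivity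
    have h4 : L / X = (L / D)⁻¹ := by
      field_simp
      rw [sq, hLL]; ring
    rw [h4]
    have h5 : 0 ≤ (L / D)⁻¹ * ((L / D) * (e * u x) - v x) ^ 2 := by positivity
    have h6 : (L / D)⁻¹ * ((L / D) * (e * u x) - v x) ^ 2 =
        L / D * (e ^ 2 * u x ^ 2) + (L / D)⁻¹ * v x ^ 2 - 2 * (e * (u x * v x)) := by
      have h7 : (L / D)⁻¹ * (L / D) = 1 := inv_mul_cancel₀ h3.ne'
      linear_combination ((L / D) * (e * u x) ^ 2 - 2 * (e * u x) * v x) * h7
    linarith
  have hi1 : IntervalIntegrable (fun x => e * (u x * v x)) volume 1 T := by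
    apply Continuous.intervalIntegrable; fun_prop
  have hi2 : IntervalIntegrable
      (fun x => (L / D * (e ^ 2 * u x ^ 2) + L / X * v x ^ 2) / 2) volume 1 T := by
    apply Continuous.intervalIntegrable; fun_prop
  have h1 := intervalIntegral.integral_mono_on hT hi1 hi2 (fun x _ => hpt x)
  rw [intervalIntegral.integral_const_mul, intervalIntegral.integral_div,
    intervalIntegral.integral_add (by apply Continuous.intervalIntegrable; fun_prop)
      (by apply Continuous.intervalIntegrable; fun_prop),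
    intervalIntegral.integral_const_mul, intervalIntegral.integral_const_mul,
    intervalIntegral.integral_const_mul] at h1
  refine h1.trans ?_
  have h2 : L / D * (e ^ 2 * ∫ x in (1 : ℝ)..T, u x ^ 2) ≤ L / D * D :=
    mul_le_mul_of_nonneg_left hu2 (by positivity)
  have h3 : L / X * (∫ x in (1 : ℝ)..T, v x ^ 2) ≤ L / X * X :=
    mul_le_mul_of_nonneg_left hv2 (by positivity)
  have h4 : L / D * D = L := by field_simp
  have h5 : L / X * X = L := by field_simp
  linarith

/-- **Interpolation.** A mean square bound on one vertical line and a uniform bound on another give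
bounds for the higher moments on the lines between. -/
theorem core {f : ℂ → ℂ} {a b : ℝ} (ha : 0 < a) (hab : a < b)
    (hf : ∀ s : ℂ, 0 < s.re → DifferentiableAt ℂ f s) {C₀ : ℝ} (hC₀ : 0 ≤ C₀)
    (hgr : ∀ s : ℂ, a ≤ s.re → s.re ≤ b → ‖f s‖ ≤ C₀ * Real.exp (C₀ * |s.im|)) {M : ℝ}
    (hM : 0 ≤ M) (hb : ∀ t : ℝ, ‖f ((b : ℂ) + t * I)‖ ≤ M) {A B : ℝ} (hA : 0 ≤ A) (hB : 0 ≤ B)
    (hms : ∀ T : ℝ, 1 ≤ T → ∫ t in (1 : ℝ)..T, ‖f ((a : ℂ) + t * I)‖ ^ 2 ≤ A * T ^ B) {k : ℕ}
    (hk : 1 ≤ k) {σ : ℝ} (hσ : k * (b - σ) = b - a) :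
    ∃ C : ℝ, 0 ≤ C ∧ ∀ T : ℝ, 1 ≤ T →
      ∫ t in (1 : ℝ)..T, ‖f ((σ : ℂ) + t * I)‖ ^ (2 * k) ≤ C * (T + T ^ B) := by
  have hk1 : (1 : ℝ) ≤ k := by exact_mod_cast hk
  have hba : 0 < b - a := by linarith
  have hσb : σ < b := by
    by_contra hcon
    push Not at hcon
    have : (k : ℝ) * (b - σ) ≤ 0 := mul_nonpos_of_nonneg_of_nonpos (by linarith) (by linarith)
    linarith
  have hσa : a ≤ σ := by
    have : 1 * (b - σ) ≤ k * (b - σ) := mul_le_mul_of_nonneg_right hk1 (by linarith)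
    linarith
  have hσ0 : 0 < σ := by linarith
  -- continuity on vertical lines
  have hcontL : ∀ c : ℂ, 0 < c.re → Continuous fun x : ℝ => f (c + x * I) := by
    intro c hc
    refine continuous_iff_continuousAt.2 fun x => ?_
    have h1 : DifferentiableAt ℂ f (c + x * I) := hf _ (by simpa using hc)
    exact ContinuousAt.comp (g := f) (f := fun x : ℝ => c + x * I) h1.continuousAt (by fun_prop)
  set h : ℝ → ℂ := fun x => f ((σ : ℂ) + x * I) with hh
  have hhc : Continuous h := hcontL σ (by simpa using hσ0)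
  set H : ℝ → ℝ := fun x => √(1 + ‖h x‖ ^ 2) with hH
  have hHc : Continuous H := by fun_prop
  have hH2 : ∀ x, H x ^ 2 = 1 + ‖h x‖ ^ 2 := fun x => Real.sq_sqrt (by positivity)
  have hH1 : ∀ x, 1 ≤ H x := fun x => by
    rw [hH]; simp only
    rw [Real.one_le_sqrt]
    have := sq_nonneg ‖h x‖
    linarith
  have hH0 : ∀ x, 0 < H x := fun x => by linarith [hH1 x]
  have hhH : ∀ x, ‖h x‖ ≤ H x := fun x => by
    apply Real.le_sqrt_of_sq_le; linarith
  set l : ℝ → ℝ := fun x => Real.log (H x) with hl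
  have hlc : Continuous l := hHc.log fun x => (hH0 x).ne'
  have hl0 : ∀ x, 0 ≤ l x := fun x => Real.log_nonneg (hH1 x)
  have hexpl : ∀ (n : ℕ) (x : ℝ), Real.exp (n * l x) = H x ^ n := fun n x => by
    rw [Real.exp_nat_mul, Real.exp_log (hH0 x)]
  set α : ℝ := k / (b - a) with hα
  set γ : ℝ := k - 1 - k * a / (b - a) with hγ
  have hα0 : 0 ≤ α := by positivity
  have hqa : α * a + γ = ((k - 1 : ℕ) : ℝ) := by
    rw [hα, hγ]; push_cast [Nat.cast_sub hk]; field_simp; ring
  have hqb : α * b + γ = ((2 * k - 1 : ℕ) : ℝ) := by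
    rw [hα, hγ]; push_cast [Nat.cast_sub (by omega : 1 ≤ 2 * k)]; field_simp; ring
  have hqσ : α * σ + γ = ((2 * k - 2 : ℕ) : ℝ) := by
    rw [hα, hγ]; push_cast [Nat.cast_sub (by omega : 2 ≤ 2 * k)]; field_simp; linarith
  -- the analytic family
  set G : ℂ → ℝ → ℂ := fun s x =>
    f (s + x * I) * ((starRingEnd ℂ) (h x) * cexp ((α * s + γ) * l x)) with hG
  set G' : ℂ → ℝ → ℂ := fun s x =>
    deriv f (s + x * I) * ((starRingEnd ℂ) (h x) * cexp ((α * s + γ) * l x)) +
      f (s + x * I) * ((starRingEnd ℂ) (h x) * (cexp ((α * s + γ) * l x) * (α * l x))) with hG'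
  have hGn : ∀ (s : ℂ) (x : ℝ), ‖G s x‖ =
      ‖f (s + x * I)‖ * (‖h x‖ * Real.exp ((α * s.re + γ) * l x)) := by
    intro s x
    rw [hG]
    simp only [norm_mul, RCLike.norm_conj, Complex.norm_exp]
    congr 3
    simp
  set U : Set ℂ := {s : ℂ | 0 < s.re} with hU
  have hUo : IsOpen U := isOpen_lt continuous_const Complex.continuous_re
  have hfU : DifferentiableOn ℂ f U := fun s hs => (hf s hs).differentiableWithinAt
  have hGc : ∀ s ∈ U, Continuous (G s) := by
    intro s hs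
    have h1 := hcontL s hs
    have h2 : Continuous fun x : ℝ => (starRingEnd ℂ) (h x) := by fun_prop
    have h3 : Continuous fun x : ℝ => cexp ((α * s + γ) * l x) := by fun_prop
    exact h1.mul (h2.mul h3)
  have hmap : ContinuousOn (fun p : ℂ × ℝ => p.1 + (p.2 : ℂ) * I) (U ×ˢ univ) := by fun_prop
  have hmapU : MapsTo (fun p : ℂ × ℝ => p.1 + (p.2 : ℂ) * I) (U ×ˢ univ) U := by
    intro p hp
    have h1 : 0 < p.1.re := hp.1
    show 0 < (p.1 + (p.2 : ℂ) * I).re
    simpa using h1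
  have hdf : ContinuousOn (deriv f) U := (hfU.deriv hUo).continuousOn
  have hG'c : ContinuousOn (fun p : ℂ × ℝ => G' p.1 p.2) (U ×ˢ univ) := by
    have h1 := hdf.comp hmap hmapU
    have h2 := hfU.continuousOn.comp hmap hmapU
    have h3 : ContinuousOn (fun p : ℂ × ℝ => (starRingEnd ℂ) (h p.2)) (U ×ˢ univ) := by
      apply Continuous.continuousOn; fun_prop
    have h4 : ContinuousOn (fun p : ℂ × ℝ => cexp ((α * p.1 + γ) * l p.2)) (U ×ˢ univ) := by
      apply Continuous.continuousOn; fun_prop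
    have h5 : ContinuousOn (fun p : ℂ × ℝ => ((α : ℂ) * l p.2)) (U ×ˢ univ) := by
      apply Continuous.continuousOn; fun_prop
    exact (h1.mul (h3.mul h4)).add (h2.mul (h3.mul (h4.mul h5)))
  have hGd : ∀ s ∈ U, ∀ x : ℝ, HasDerivAt (fun z => G z x) (G' s x) s := by
    intro s hs x
    have h1 : HasDerivAt (fun z : ℂ => f (z + x * I)) (deriv f (s + x * I)) s := by
      have h2 : HasDerivAt f (deriv f (s + x * I)) (s + x * I) :=
        (hf _ (by simpa using (show 0 < s.re from hs))).hasDerivAt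
      have h3 : HasDerivAt (fun z : ℂ => z + x * I) 1 s := (hasDerivAt_id s).add_const _
      have h4 := h2.comp s h3
      rw [mul_one] at h4
      exact h4
    have h2 : HasDerivAt (fun z : ℂ => cexp ((α * z + γ) * l x))
        (cexp ((α * s + γ) * l x) * (α * l x)) s := by
      have h3 : HasDerivAt (fun z : ℂ => ((α : ℂ) * z + γ) * l x) (α * l x) s := by
        have := (((hasDerivAt_id s).const_mul (α : ℂ)).add_const (γ : ℂ)).mul_const (l x : ℂ)
        simpa using this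
      exact h3.cexp
    exact h1.mul (h2.const_mul _)
  -- the size of the family
  have hGle : ∀ (s : ℂ) (x : ℝ), s.re ≤ b → ‖G s x‖ ≤ ‖f (s + x * I)‖ * H x ^ (2 * k) := by
    intro s x hs
    rw [hGn]
    apply mul_le_mul_of_nonneg_left _ (norm_nonneg _)
    have h1 : Real.exp ((α * s.re + γ) * l x) ≤ Real.exp (((2 * k - 1 : ℕ) : ℝ) * l x) := by
      apply Real.exp_le_exp.2
      apply mul_le_mul_of_nonneg_right _ (hl0 x)
      rw [← hqb]
      have := mul_le_mul_of_nonneg_left hs hα0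
      linarith
    rw [hexpl] at h1
    calc ‖h x‖ * Real.exp ((α * s.re + γ) * l x) ≤ H x * H x ^ (2 * k - 1) :=
          mul_le_mul (hhH x) h1 (Real.exp_pos _).le (hH0 x).le
      _ = H x ^ (2 * k) := by
          rw [← pow_succ']
          congr 1
          omega
  have hGlea : ∀ (s : ℂ) (x : ℝ), s.re = a → ‖G s x‖ ≤ ‖f (s + x * I)‖ * H x ^ k := by
    intro s x hs
    rw [hGn, hs, hqa, hexpl]
    apply mul_le_mul_of_nonneg_left _ (norm_nonneg _)
    calc ‖h x‖ * H x ^ (k - 1) ≤ H x * H x ^ (k - 1) :=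
          mul_le_mul_of_nonneg_right (hhH x) (by positivity)
      _ = H x ^ k := by
          rw [← pow_succ']
          congr 1
          omega
  have hre2 : ∀ u τ : ℝ, ‖cexp (((u : ℂ) + τ * I) ^ 2)‖ = Real.exp (u ^ 2) * Real.exp (-τ ^ 2) := by
    intro u τ
    rw [Complex.norm_exp, ← Real.exp_add]
    congr 1
    have : (((u : ℂ) + τ * I) ^ 2).re = u ^ 2 - τ ^ 2 := by
      simp [sq]
    rw [this]
    ring
  set C₁ : ℝ := C₀ ^ 2 + 2 * C₀ with hC₁
  have hC₁0 : 0 ≤ C₁ := by positivity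
  set K : ℝ := C₁ * Real.exp C₁ * Real.exp ((C₁ + 1) ^ 2) + A * Real.exp (B ^ 2) + 1 with hK
  have hK0 : 0 < K := by positivity
  set N : ℝ := Real.exp (b ^ 2) * (M + 1) with hN
  have hN0 : 0 < N := by positivity
  refine ⟨2 ^ (k + 2) + 4 ^ (2 * k) * Real.exp (2 * a ^ 2) * N ^ (2 * k - 2) * K, by positivity,
    fun T hT => ?_⟩
  have hT0 : 0 < T := by linarith
  have hTB : 1 ≤ T ^ B := Real.one_le_rpow hT hB
  rcases hT.eq_or_lt with hT1 | hT1
  · rw [← hT1, intervalIntegral.integral_same]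
    positivity
  set X : ℝ := ∫ x in (1 : ℝ)..T, H x ^ (2 * k) with hX
  have hHi : ∀ n : ℕ, IntervalIntegrable (fun x => H x ^ n) volume 1 T := fun n =>
    (hHc.pow n).intervalIntegrable _ _
  have hX1 : T - 1 ≤ X := by
    have h1 : ∫ x in (1 : ℝ)..T, (1 : ℝ) ≤ X :=
      intervalIntegral.integral_mono_on hT (by simp) (hHi _) fun x _ => one_le_pow₀ (hH1 x)
    simpa using h1
  have hX0 : 0 < X := by linarith
  -- the moment is at most `X`
  have hle : ∫ t in (1 : ℝ)..T, ‖f ((σ : ℂ) + t * I)‖ ^ (2 * k) ≤ X := by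
    apply intervalIntegral.integral_mono_on hT ((hhc.norm.pow _).intervalIntegrable _ _) (hHi _)
    intro x _
    exact pow_le_pow_left₀ (norm_nonneg _) (hhH x) _
  refine hle.trans ?_
  rcases le_or_gt X (2 ^ (k + 2) * T) with hXT | hXT
  · have h1 : 0 ≤ 4 ^ (2 * k) * Real.exp (2 * a ^ 2) * N ^ (2 * k - 2) * K := by positivity
    have h2 : (0 : ℝ) ≤ 2 ^ (k + 2) := by positivity
    nlinarith
  set D : ℝ := K * T ^ B with hD
  have hD0 : 0 < D := by positivity
  set Φ : ℂ → ℂ := fun s => cexp (s ^ 2) * ∫ x in (1 : ℝ)..T, G s x with hΦ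
  have hΦd : ∀ s ∈ U, DifferentiableAt ℂ Φ s := by
    intro s hs
    have h1 := param_diff hUo hGd hGc hG'c 1 T s hs
    have h2 : DifferentiableAt ℂ (fun s : ℂ => cexp (s ^ 2)) s := by fun_prop
    exact h2.mul h1
  have hdecomp : ∀ s : ℂ, s = (s.re : ℂ) + s.im * I := fun s => (Complex.re_add_im s).symm
  have hΦn : ∀ s : ℂ, ‖Φ s‖ ≤ Real.exp (s.re ^ 2) * Real.exp (-s.im ^ 2) *
      ∫ x in (1 : ℝ)..T, ‖G s x‖ := by
    intro s
    rw [hΦ]
    simp only
    rw [norm_mul]
    have h1 : ‖cexp (s ^ 2)‖ = Real.exp (s.re ^ 2) * Real.exp (-s.im ^ 2) := by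
      conv_lhs => rw [hdecomp s]
      exact hre2 _ _
    rw [h1]
    apply mul_le_mul_of_nonneg_left _ (by positivity)
    exact intervalIntegral.norm_integral_le_integral_norm hT
  -- the left line
  have hleft : ∀ z ∈ re ⁻¹' {a}, ‖Φ z‖ ≤ √((Real.exp (2 * a ^ 2) * D) * X) := by
    intro z hz
    have hza : z.re = a := hz
    have hzU : z ∈ U := by show 0 < z.re; rw [hza]; exact ha
    refine (hΦn z).trans ?_
    rw [hza]
    have h1 : ∫ x in (1 : ℝ)..T, ‖G z x‖ ≤ ∫ x in (1 : ℝ)..T, ‖f (z + x * I)‖ * H x ^ k := by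
      apply intervalIntegral.integral_mono_on hT ((hGc z hzU).norm.intervalIntegrable _ _)
      · exact ((hcontL z hzU).norm.mul (hHc.pow k)).intervalIntegrable _ _
      · exact fun x _ => hGlea z x hza
    refine (mul_le_mul_of_nonneg_left h1 (by positivity)).trans ?_
    apply cs_bound (hcontL z hzU).norm (hHc.pow k) hT (by positivity) hX0
    · have h2 := shifted (g := fun t => ‖f ((a : ℂ) + t * I)‖ ^ 2)
        ((hcontL a (by simpa using ha)).norm.pow 2) (fun t => by positivity) hC₁0 hA hB (by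
          intro t
          have h3 := hgr ((a : ℂ) + t * I) (by simp) (by simpa using hab.le)
          have h4 : ((a : ℂ) + t * I).im = t := by simp
          rw [h4] at h3
          have h5 := pow_le_pow_left₀ (norm_nonneg _) h3 2
          refine h5.trans ?_
          rw [mul_pow, ← Real.exp_nat_mul]
          push_cast
          have h6 : C₀ ^ 2 ≤ C₁ := by rw [hC₁]; linarith
          have h7 : 2 * (C₀ * |t|) ≤ C₁ * |t| := by
            rw [← mul_assoc]
            apply mul_le_mul_of_nonneg_right _ (abs_nonneg t)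
            rw [hC₁]; nlinarith
          exact mul_le_mul h6 (Real.exp_le_exp.2 h7) (Real.exp_pos _).le hC₁0) hms hT z.im
      have h3 : ∫ x in (1 : ℝ)..T, ‖f (z + x * I)‖ ^ 2 =
          ∫ x in (1 : ℝ)..T, ‖f ((a : ℂ) + ((z.im + x : ℝ) : ℂ) * I)‖ ^ 2 := by
        congr 1
        funext x
        congr 3
        conv_lhs => rw [hdecomp z, hza]
        push_cast
        ring
      rw [h3]
      have h4 : (Real.exp (a ^ 2) * Real.exp (-z.im ^ 2)) ^ 2 =
          Real.exp (2 * a ^ 2) * Real.exp (-(2 * z.im ^ 2)) := by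
        rw [mul_pow, ← Real.exp_nat_mul, ← Real.exp_nat_mul]
        congr 2
        push_cast
        ring
      rw [h4, mul_assoc]
      apply mul_le_mul_of_nonneg_left _ (Real.exp_pos _).le
      refine h2.trans ?_
      rw [hD]
      apply mul_le_mul_of_nonneg_right _ (by positivity)
      rw [hK]
      linarith
    · apply le_of_eq
      rw [hX]
      congr 1
      funext x
      show (H x ^ k) ^ 2 = H x ^ (2 * k)
      rw [← pow_mul]
      congr 1
      ring
  -- the right line and boundedness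
  have hgen : ∀ z : ℂ, 0 < z.re → z.re ≤ b → ∀ Y : ℝ, (∀ x ∈ Icc 1 T, ‖f (z + x * I)‖ ≤ Y) →
      0 ≤ Y → ‖Φ z‖ ≤ Real.exp (b ^ 2) * Real.exp (-z.im ^ 2) * (Y * X) := by
    intro z hz0 hzb Y hY hY0
    refine (hΦn z).trans ?_
    have h1 : Real.exp (z.re ^ 2) ≤ Real.exp (b ^ 2) :=
      Real.exp_le_exp.2 (pow_le_pow_left₀ hz0.le hzb 2)
    have h2 : ∫ x in (1 : ℝ)..T, ‖G z x‖ ≤ Y * X := by
      rw [hX, ← intervalIntegral.integral_const_mul]
      apply intervalIntegral.integral_mono_on hT ((hGc z hz0).norm.intervalIntegrable _ _)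
        ((hHi _).const_mul Y)
      intro x hx
      exact (hGle z x hzb).trans (mul_le_mul_of_nonneg_right (hY x hx) (pow_nonneg (hH0 x).le _))
    have h3 : 0 ≤ ∫ x in (1 : ℝ)..T, ‖G z x‖ :=
      intervalIntegral.integral_nonneg hT fun x _ => norm_nonneg _
    exact mul_le_mul (mul_le_mul_of_nonneg_right h1 (Real.exp_pos _).le) h2 h3 (by positivity)
  have hright : ∀ z ∈ re ⁻¹' {b}, ‖Φ z‖ ≤ N * X := by
    intro z hz
    have hzb : z.re = b := hz
    have hb0 : 0 < b := by linarith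
    refine (hgen z (by rw [hzb]; exact hb0) hzb.le M (fun x _ => ?_) hM).trans ?_
    · have h1 : z + x * I = (b : ℂ) + ((z.im + x : ℝ) : ℂ) * I := by
        conv_lhs => rw [hdecomp z, hzb]
        push_cast
        ring
      rw [h1]
      exact hb _
    · have h1 : Real.exp (-z.im ^ 2) ≤ 1 := Real.exp_le_one_iff.2 (by
        have := sq_nonneg z.im
        linarith)
      have h2 : 0 < Real.exp (b ^ 2) := Real.exp_pos _
      calc Real.exp (b ^ 2) * Real.exp (-z.im ^ 2) * (M * X)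
          ≤ Real.exp (b ^ 2) * 1 * ((M + 1) * X) := by
            gcongr
            linarith
        _ = N * X := by rw [hN]; ring
  have hbdd : BddAbove ((norm ∘ Φ) '' Complex.HadamardThreeLines.verticalClosedStrip a b) := by
    refine ⟨Real.exp (b ^ 2) * Real.exp (C₀ ^ 2) * (C₀ * Real.exp (C₀ * T) * X), ?_⟩
    rintro _ ⟨z, hz, rfl⟩
    have hz1 : a ≤ z.re := hz.1
    have hz2 : z.re ≤ b := hz.2
    refine (hgen z (by linarith) hz2 (C₀ * Real.exp (C₀ * T) * Real.exp (C₀ * |z.im|))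
      (fun x hx => ?_) (by positivity)).trans ?_
    · have h1 := hgr (z + x * I) (by simpa using hz1) (by simpa using hz2)
      have h2 : (z + x * I).im = z.im + x := by simp
      rw [h2] at h1
      refine h1.trans ?_
      rw [mul_assoc, ← Real.exp_add, ← mul_add]
      have h3 : |z.im + x| ≤ T + |z.im| := by
        have h4 := abs_add_le z.im x
        have h5 : |x| = x := abs_of_nonneg (by linarith [hx.1])
        rw [h5] at h4
        linarith [hx.2]
      gcongr
    · have h1 := exp_lin_le' C₀ z.im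
      have h2 : 0 ≤ Real.exp (b ^ 2) * (C₀ * Real.exp (C₀ * T) * X) := by positivity
      calc Real.exp (b ^ 2) * Real.exp (-z.im ^ 2) *
            (C₀ * Real.exp (C₀ * T) * Real.exp (C₀ * |z.im|) * X)
          = Real.exp (b ^ 2) * (C₀ * Real.exp (C₀ * T) * X) *
            (Real.exp (C₀ * |z.im|) * Real.exp (-z.im ^ 2)) := by ring
        _ ≤ Real.exp (b ^ 2) * (C₀ * Real.exp (C₀ * T) * X) * Real.exp (C₀ ^ 2) :=
            mul_le_mul_of_nonneg_left h1 h2
        _ = _ := by ring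
  have hdcl : DiffContOnCl ℂ Φ (Complex.HadamardThreeLines.verticalStrip a b) := by
    apply DifferentiableOn.diffContOnCl
    intro z hz
    have h1 : z ∈ re ⁻¹' Icc a b := by
      have h2 : closure (Complex.HadamardThreeLines.verticalStrip a b) ⊆ re ⁻¹' Icc a b := by
        apply closure_minimal
        · exact preimage_mono Ioo_subset_Icc_self
        · exact isClosed_Icc.preimage Complex.continuous_re
      exact h2 hz
    exact (hΦd z (lt_of_lt_of_le ha h1.1)).differentiableWithinAt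
  have h3l := Complex.HadamardThreeLines.norm_le_interp_of_mem_verticalClosedStrip' hab
    (z := (σ : ℂ)) ⟨by simpa using hσa, by simpa using hσb.le⟩ hdcl hbdd hleft hright
  rw [Complex.ofReal_re] at h3l
  -- the value at `σ`
  have hval : X / 4 ≤ ‖Φ σ‖ := by
    have h1 : ∀ x, G σ x = ((‖h x‖ ^ 2 * H x ^ (2 * k - 2) : ℝ) : ℂ) := by
      intro x
      have h2 : cexp ((α * σ + γ) * l x) = ((H x ^ (2 * k - 2) : ℝ) : ℂ) := by
        have h3 : ((α : ℂ) * σ + γ) * l x = ((((2 * k - 2 : ℕ) : ℝ) * l x : ℝ) : ℂ) := by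
          rw [← hqσ]; push_cast; ring
        rw [h3, ← Complex.ofReal_exp, hexpl]
      show f ((σ : ℂ) + x * I) * ((starRingEnd ℂ) (h x) * cexp ((α * σ + γ) * l x)) = _
      rw [h2, ← mul_assoc]
      have h4 : f ((σ : ℂ) + x * I) * (starRingEnd ℂ) (h x) = ((‖h x‖ ^ 2 : ℝ) : ℂ) := by
        show h x * (starRingEnd ℂ) (h x) = _
        rw [Complex.mul_conj, Complex.normSq_eq_norm_sq]
      rw [h4]
      push_cast
      ring
    have h2 : Φ σ = ((Real.exp (σ ^ 2) * ∫ x in (1 : ℝ)..T, ‖h x‖ ^ 2 * H x ^ (2 * k - 2) : ℝ) : ℂ) := by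
      rw [hΦ]
      simp only [h1]
      rw [intervalIntegral.integral_ofReal]
      push_cast
      rfl
    have h3 : 0 ≤ ∫ x in (1 : ℝ)..T, ‖h x‖ ^ 2 * H x ^ (2 * k - 2) :=
      intervalIntegral.integral_nonneg hT fun x _ =>
        mul_nonneg (by positivity) (pow_nonneg (hH0 x).le _)
    have h4 : 1 ≤ Real.exp (σ ^ 2) := Real.one_le_exp (sq_nonneg _)
    rw [h2, Complex.norm_real, Real.norm_of_nonneg (by positivity)]
    have h5 : ∫ x in (1 : ℝ)..T, (H x ^ (2 * k) / 2 - 2 ^ k) ≤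
        ∫ x in (1 : ℝ)..T, ‖h x‖ ^ 2 * H x ^ (2 * k - 2) := by
      apply intervalIntegral.integral_mono_on hT
      · exact ((hHi _).div_const 2).sub (by simp)
      · exact ((hhc.norm.pow 2).mul (hHc.pow _)).intervalIntegrable _ _
      · intro x _
        have h6 : ‖h x‖ ^ 2 = H x ^ 2 - 1 := by rw [hH2]; ring
        have h7 : H x ^ (2 * k) = H x ^ 2 * H x ^ (2 * k - 2) := by
          rw [← pow_add]; congr 1; omega
        have h8 : 1 ≤ H x ^ (2 * k - 2) := one_le_pow₀ (hH1 x)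
        rw [h6, h7]
        rcases le_or_gt 2 (H x ^ 2) with h9 | h9
        · have : (0 : ℝ) ≤ 2 ^ k := by positivity
          nlinarith
        · have h10 : H x ^ (2 * k - 2) ≤ 2 ^ k := by
            have h11 : H x ^ (2 * k - 2) = (H x ^ 2) ^ (k - 1) := by
              rw [← pow_mul]; congr 1; omega
            rw [h11]
            calc (H x ^ 2) ^ (k - 1) ≤ 2 ^ (k - 1) := pow_le_pow_left₀ (by positivity) h9.le _
              _ ≤ 2 ^ k := pow_le_pow_right₀ (by norm_num) (by omega)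
          have : 0 ≤ H x ^ 2 := by positivity
          nlinarith
    rw [intervalIntegral.integral_sub ((hHi _).div_const 2) (by simp),
      intervalIntegral.integral_div, intervalIntegral.integral_const, smul_eq_mul, ← hX] at h5
    have h6 : (T - 1) * 2 ^ k ≤ X / 4 := by
      have h7 : (2 : ℝ) ^ (k + 2) = 4 * 2 ^ k := by rw [pow_add]; ring
      rw [h7] at hXT
      have h8 : (0 : ℝ) < 2 ^ k := by positivity
      nlinarith
    calc X / 4 ≤ ∫ x in (1 : ℝ)..T, ‖h x‖ ^ 2 * H x ^ (2 * k - 2) := by linarith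
      _ ≤ Real.exp (σ ^ 2) * ∫ x in (1 : ℝ)..T, ‖h x‖ ^ 2 * H x ^ (2 * k - 2) :=
          le_mul_of_one_le_left h3 h4
  -- the conclusion
  set P : ℝ := √((Real.exp (2 * a ^ 2) * D) * X) with hP
  have hP0 : 0 ≤ P := Real.sqrt_nonneg _
  have hP2 : P ^ 2 = (Real.exp (2 * a ^ 2) * D) * X := Real.sq_sqrt (by positivity)
  have hQ0 : 0 ≤ N * X := by positivity
  have e1 : (1 - (σ - a) / (b - a)) * ((2 * k : ℕ) : ℝ) = (2 : ℕ) := by
    push_cast
    field_simp
    linarith
  have e2 : ((σ - a) / (b - a)) * ((2 * k : ℕ) : ℝ) = ((2 * k - 2 : ℕ) : ℝ) := by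
    push_cast [Nat.cast_sub (by omega : 2 ≤ 2 * k)]
    field_simp
    linarith
  have h4 := pow_le_pow_left₀ (by positivity) (hval.trans h3l) (2 * k)
  rw [mul_pow, ← Real.rpow_natCast (P ^ _), ← Real.rpow_natCast ((N * X) ^ _),
    ← Real.rpow_mul hP0, ← Real.rpow_mul hQ0, e1, e2, Real.rpow_natCast, Real.rpow_natCast, hP2,
    mul_pow, div_pow] at h4
  have h5 : X ^ (2 * k) = X * (X * X ^ (2 * k - 2)) := by
    rw [← pow_succ', ← pow_succ']; congr 1; omega
  have h6 : X ≤ 4 ^ (2 * k) * Real.exp (2 * a ^ 2) * N ^ (2 * k - 2) * D := by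
    rw [h5, div_le_iff₀ (by positivity)] at h4
    have h7 : 0 < X * X ^ (2 * k - 2) := by positivity
    refine le_of_mul_le_mul_right ?_ h7
    calc X * (X * X ^ (2 * k - 2)) ≤ _ := h4
      _ = _ := by ring
  refine h6.trans ?_
  rw [hD]
  have h8 : 0 ≤ 4 ^ (2 * k) * Real.exp (2 * a ^ 2) * N ^ (2 * k - 2) * K := by positivity
  have h9 : (0 : ℝ) ≤ 2 ^ (k + 2) := by positivity
  nlinarith

end Pool.Agent.T6.H49.BZ
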