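import Pool.Agent.Y930.Bz.B
import Pool.Agent.Y616.BM.Gam

/-!
# The Barnes multiple zeta-function without its poles: growth in vertical strips
-/

set_option autoImplicit false

open Finset Filter Topology MeasureTheory Complex Set

namespace Pool.Agent.T6.H49.BZ

open Pool.Agent.H131R5.BZ Pool.Agent.Y930.Bz Pool.Agent.Y616.BM

lemma norm_Gamma_le {z : ℂ} (hz : 0 < z.re) : ‖Complex.Gamma z‖ ≤ Real.Gamma z.re := by
  rw [Complex.Gamma_eq_integral hz, Complex.GammaIntegral, Real.Gamma_eq_integral hz]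
  refine (norm_integral_le_integral_norm _).trans_eq ?_
  apply setIntegral_congr_fun measurableSet_Ioi
  intro x hx
  have hx : 0 < x := hx
  simp only [norm_mul, Complex.norm_real, Real.norm_of_nonneg (Real.exp_pos _).le]
  rw [Complex.norm_cpow_eq_rpow_re_of_pos hx]
  simp

lemma norm_sin_le (z : ℂ) : ‖Complex.sin z‖ ≤ Real.exp |z.im| := by
  rw [Complex.sin]
  rw [norm_div, norm_mul, Complex.norm_I, mul_one, Complex.norm_ofNat]
  have h1 : ‖Complex.exp (-z * Complex.I) - Complex.exp (z * Complex.I)‖ ≤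
      Real.exp |z.im| + Real.exp |z.im| := by
    refine (norm_sub_le _ _).trans ?_
    rw [Complex.norm_exp, Complex.norm_exp]
    apply add_le_add
    · apply Real.exp_le_exp.2
      have : (-z * Complex.I).re = z.im := by simp
      rw [this]; exact le_abs_self _
    · apply Real.exp_le_exp.2
      have : (z * Complex.I).re = -z.im := by simp
      rw [this]; exact neg_le_abs _
  linarith

/-- the growth of `1 / Γ` in vertical strips -/
lemma inv_Gamma_le (x0 x1 : ℝ) : ∃ C : ℝ, 0 ≤ C ∧ ∀ s : ℂ, x0 ≤ s.re → s.re ≤ x1 → 1 ≤ |s.im| →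
    ‖(Gamma s)⁻¹‖ ≤ C * Real.exp (Real.pi * |s.im|) := by
  obtain ⟨N, hN⟩ := exists_nat_ge x1
  obtain ⟨M, hM⟩ := (isCompact_Icc (a := 1 - x1 + N) (b := 1 - x0 + N)).exists_bound_of_continuousOn
    (f := Real.Gamma) (by
      intro x hx
      have hx0 : 0 < x := by linarith [hx.1]
      exact (Real.differentiableAt_Gamma (fun m => by
        have : (0 : ℝ) ≤ m := Nat.cast_nonneg m
        intro h; linarith)).continuousAt.continuousWithinAt)
  refine ⟨|M|, abs_nonneg _, fun s h0 h1 him => ?_⟩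
  have him0 : s.im ≠ 0 := by
    intro h
    rw [h, abs_zero] at him
    linarith
  have hne : ∀ i : ℕ, (1 - s) + i ≠ 0 := by
    intro i h
    have := congrArg Complex.im h
    simp at this
    exact him0 this
  have hsh := Gamma_shift N (1 - s) hne
  have hp1 : 1 ≤ ‖∏ i ∈ range N, ((1 - s) + (i : ℂ))‖ := by
    rw [norm_prod]
    calc (1 : ℝ) = ∏ _i ∈ range N, (1 : ℝ) := by simp
      _ ≤ _ := Finset.prod_le_prod (fun _ _ => zero_le_one) fun i _ => by
        have h5 := Complex.abs_im_le_norm ((1 - s) + (i : ℂ))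
        have h6 : ((1 - s) + (i : ℂ)).im = -s.im := by simp
        rw [h6, abs_neg] at h5
        exact him.trans h5
  have hG1 : ‖Gamma (1 - s)‖ ≤ |M| := by
    have h2 : 0 < ((1 - s) + N).re := by
      simp
      linarith
    have h3 := norm_Gamma_le h2
    have h4 : ((1 - s) + (N : ℂ)).re = 1 - s.re + N := by simp
    rw [h4] at h3
    have h5 := hM (1 - s.re + N) ⟨by linarith, by linarith⟩
    rw [hsh, norm_mul] at h3
    have h6 : ‖Gamma (1 - s)‖ ≤ ‖∏ i ∈ range N, ((1 - s) + (i : ℂ))‖ * ‖Gamma (1 - s)‖ :=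
      le_mul_of_one_le_left (norm_nonneg _) hp1
    refine h6.trans (h3.trans ((le_abs_self _).trans ?_))
    rw [← Real.norm_eq_abs]
    exact h5.trans (le_abs_self _)
  have h2 := Complex.Gamma_mul_Gamma_one_sub s
  have hG0 : Gamma s ≠ 0 := by
    apply Complex.Gamma_ne_zero
    intro m hm
    have := congrArg Complex.im hm
    simp at this
    exact him0 this
  have hG0' : Gamma (1 - s) ≠ 0 := by
    apply Complex.Gamma_ne_zero
    intro m hm
    have := congrArg Complex.im hm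
    simp at this
    exact him0 this
  have hs : Complex.sin (Real.pi * s) ≠ 0 := by
    intro hs
    rw [hs, div_zero] at h2
    rcases mul_eq_zero.1 h2 with h | h
    · exact hG0 h
    · exact hG0' h
  have hpi : (Real.pi : ℂ) ≠ 0 := by exact_mod_cast Real.pi_ne_zero
  have h4 : (Gamma s)⁻¹ = Gamma (1 - s) * Complex.sin (Real.pi * s) / Real.pi := by
    rw [eq_div_iff hpi]
    rw [eq_div_iff hs] at h2
    calc (Gamma s)⁻¹ * (Real.pi : ℂ)
        = (Gamma s)⁻¹ * (Gamma s * Gamma (1 - s) * Complex.sin (Real.pi * s)) := by rw [h2]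
      _ = Gamma (1 - s) * Complex.sin (Real.pi * s) := by
          rw [mul_assoc, inv_mul_cancel_left₀ hG0]
  rw [h4, norm_div, norm_mul, Complex.norm_real, Real.norm_of_nonneg Real.pi_pos.le]
  have h5 := norm_sin_le (Real.pi * s)
  have h6 : ((Real.pi : ℂ) * s).im = Real.pi * s.im := by simp
  rw [h6, abs_mul, abs_of_pos Real.pi_pos] at h5
  have h7 : 1 ≤ Real.pi := by linarith [Real.pi_gt_three]
  calc ‖Gamma (1 - s)‖ * ‖Complex.sin (Real.pi * s)‖ / Real.pi
      ≤ ‖Gamma (1 - s)‖ * ‖Complex.sin (Real.pi * s)‖ := div_le_self (by positivity) h7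
    _ ≤ |M| * Real.exp (Real.pi * |s.im|) := mul_le_mul hG1 h5 (norm_nonneg _) (abs_nonneg _)

variable {r : ℕ} {a : ℝ} {w : Fin r → ℝ} {c : ℕ → ℂ}

/-- growth in strips: `Γ F` is bounded away from the real axis -/
lemma growth2 (ha : 0 < a) (hw : ∀ j, 0 < w j) (hc : Tay a w c) (x0 x1 : ℝ) :
    ∃ C : ℝ, 0 ≤ C ∧ ∀ s : ℂ, x0 ≤ s.re → s.re ≤ x1 → 1 ≤ |s.im| →
      ‖Gamma s * FF a w c s‖ ≤ C := by
  set N : ℕ := ⌈(r : ℝ) - x0⌉₊ + 1 with hNd
  have hN1 : (r : ℝ) - N < x0 := by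
    have := Nat.le_ceil ((r : ℝ) - x0)
    rw [hNd]; push_cast; linarith
  by_cases h01 : x0 ≤ x1
  swap
  · exact ⟨0, le_rfl, fun s h0 h1 _ => absurd (h0.trans h1) h01⟩
  obtain ⟨C, hC0, hC⟩ := mellin_bound (f := hN a w c N) (x0 := x0 - r) (x1 := x1 - r)
    (hN_conv ha hw hc N (by simp; linarith)) (hN_conv ha hw hc N (by simp; linarith))
  refine ⟨C + ∑ k ∈ range N, ‖c k‖, by positivity, fun s h0 h1 him => ?_⟩
  have him0 : s.im ≠ 0 := by
    intro h
    rw [h, abs_zero] at him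
    linarith
  rw [FF_eq ha hw hc N (by linarith : (r : ℝ) - N < s.re)]
  unfold FN
  have hG : Gamma s ≠ 0 := by
    apply Complex.Gamma_ne_zero
    intro m hm
    have := congrArg Complex.im hm
    simp at this
    exact him0 this
  have hne : ∀ k : ℕ, s - r + k ≠ 0 := by
    intro k hk
    have := congrArg Complex.im hk
    simp at this
    exact him0 this
  have e1 : Gamma s * ((Gamma s)⁻¹ * mellin (hN a w c N) (s - r) + ∑ k ∈ range N, c k * Qk r k s) =
      mellin (hN a w c N) (s - r) + ∑ k ∈ range N, c k * (1 / (s - r + k)) := by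
    rw [mul_add, ← mul_assoc, mul_inv_cancel₀ hG, one_mul, Finset.mul_sum]
    congr 1
    refine Finset.sum_congr rfl (fun k _ => ?_)
    rw [Qk_eq r k (hne k)]
    field_simp
  rw [e1]
  refine (norm_add_le _ _).trans (add_le_add (hC _ (by simp; linarith) (by simp; linarith)) ?_)
  refine (norm_sum_le _ _).trans (Finset.sum_le_sum (fun k _ => ?_))
  rw [norm_mul]
  have h2 : ‖1 / (s - r + k)‖ ≤ 1 := by
    rw [norm_div, norm_one, div_le_one (norm_pos_iff.2 (hne k))]
    have h3 := Complex.abs_im_le_norm (s - r + k)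
    have h4 : (s - r + k).im = s.im := by simp
    rw [h4] at h3
    linarith
  calc ‖c k‖ * ‖1 / (s - r + k)‖ ≤ ‖c k‖ * 1 := by gcongr
    _ = _ := mul_one _

/-- the factor which removes the poles -/
noncomputable def RR (r : ℕ) (s : ℂ) : ℂ := ∏ j ∈ Icc 1 r, ((s - (j : ℂ)) / (s + 1))

lemma add_one_ne {s : ℂ} (hs : 0 < s.re) : s + 1 ≠ 0 := by
  intro h
  have := congrArg Complex.re h
  simp at this
  linarith

lemma RR_diff {s : ℂ} (hs : 0 < s.re) : DifferentiableAt ℂ (RR r) s := by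
  unfold RR
  refine DifferentiableAt.fun_finsetProd (fun j _ => ?_)
  exact ((differentiableAt_id).sub_const _).div ((differentiableAt_id).add_const _) (add_one_ne hs)

lemma norm_add_one {s : ℂ} (hs : 0 < s.re) : 1 ≤ ‖s + 1‖ := by
  have h1 := Complex.abs_re_le_norm (s + 1)
  have h2 : (s + 1).re = s.re + 1 := by simp
  rw [h2, abs_of_pos (by linarith)] at h1
  linarith

lemma RR_le {s : ℂ} (hs : 0 < s.re) : ‖RR r s‖ ≤ ((r : ℝ) + 2) ^ r := by
  unfold RR
  rw [norm_prod]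
  calc ∏ j ∈ Icc 1 r, ‖(s - (j : ℂ)) / (s + 1)‖ ≤ ∏ _j ∈ Icc 1 r, ((r : ℝ) + 2) := by
        apply Finset.prod_le_prod (fun _ _ => norm_nonneg _)
        intro j hj
        rw [Finset.mem_Icc] at hj
        have h1 := norm_add_one hs
        rw [norm_div, div_le_iff₀ (by linarith)]
        have h2 : s - (j : ℂ) = (s + 1) - ((j : ℂ) + 1) := by ring
        rw [h2]
        refine (norm_sub_le _ _).trans ?_
        have h3 : ‖(j : ℂ) + 1‖ = (j : ℝ) + 1 := by
          have : (j : ℂ) + 1 = (((j : ℝ) + 1 : ℝ) : ℂ) := by push_cast; rfl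
          rw [this, Complex.norm_real, Real.norm_of_nonneg (by positivity)]
        rw [h3]
        have h4 : (j : ℝ) ≤ r := by exact_mod_cast hj.2
        have h5 : 0 ≤ (r : ℝ) + 1 := by positivity
        nlinarith
    _ = ((r : ℝ) + 2) ^ r := by simp

lemma RR_ge {s : ℂ} (hs : 0 < s.re) {b : ℝ} (hb : s.re ≤ b) (him : 1 ≤ s.im) :
    (b + 2)⁻¹ ^ r ≤ ‖RR r s‖ := by
  have hb0 : 0 < b := by linarith
  unfold RR
  rw [norm_prod]
  calc (b + 2)⁻¹ ^ r = ∏ _j ∈ Icc 1 r, (b + 2)⁻¹ := by simp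
    _ ≤ ∏ j ∈ Icc 1 r, ‖(s - (j : ℂ)) / (s + 1)‖ := by
        apply Finset.prod_le_prod (fun _ _ => by positivity)
        intro j hj
        have h1 := norm_add_one hs
        rw [norm_div, inv_eq_one_div, div_le_div_iff₀ (by linarith) (by linarith), one_mul]
        have h2 : ‖s + 1‖ ≤ (b + 1) + s.im := by
          have h3 := Complex.norm_le_abs_re_add_abs_im (s + 1)
          have h4 : (s + 1).re = s.re + 1 := by simp
          have h5 : (s + 1).im = s.im := by simp
          rw [h4, h5, abs_of_pos (by linarith), abs_of_pos (by linarith)] at h3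
          linarith
        have h3 : s.im ≤ ‖s - (j : ℂ)‖ := by
          have h4 := Complex.abs_im_le_norm (s - (j : ℂ))
          have h5 : (s - (j : ℂ)).im = s.im := by simp
          rw [h5] at h4
          exact (le_abs_self _).trans h4
        nlinarith

open Classical in
/-- the zeta function without its poles -/
noncomputable def ff (r : ℕ) (Z : ℂ → ℂ) (s : ℂ) : ℂ :=
  if s ∈ Om r then RR r s * Z s else limUnder (𝓝[≠] s) (fun z => RR r z * Z z)

lemma ff_of_mem {Z : ℂ → ℂ} {s : ℂ} (hs : s ∈ Om r) : ff r Z s = RR r s * Z s := if_pos hs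

lemma ff_diff {Z : ℂ → ℂ} (hZ : ∀ s ∈ Om r, DifferentiableAt ℂ Z s)
    (hp : ∀ j : ℕ, 1 ≤ j → j ≤ r →
      ∃ l : ℂ, Tendsto (fun s : ℂ => (s - j) * Z s) (𝓝[≠] (j : ℂ)) (𝓝 l)) {s : ℂ}
    (hs : 0 < s.re) : DifferentiableAt ℂ (ff r Z) s := by
  have hmem : ∀ z ∈ Om r, 0 < z.re → DifferentiableAt ℂ (ff r Z) z := by
    intro z hz hz0
    have h1 : DifferentiableAt ℂ (fun z => RR r z * Z z) z := (RR_diff hz0).mul (hZ z hz)
    refine h1.congr_of_eventuallyEq ?_
    filter_upwards [(Om_open r).mem_nhds hz] with y hy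
    exact ff_of_mem hy
  by_cases hsO : s ∈ Om r
  · exact hmem s hsO hs
  · have h1 : ∃ j : ℕ, 1 ≤ j ∧ j ≤ r ∧ s = (j : ℂ) := by
      by_contra hcon
      push Not at hcon
      exact hsO fun k hk1 hk2 => hcon k hk1 hk2
    obtain ⟨j, hj1, hj2, rfl⟩ := h1
    obtain ⟨l, hl⟩ := hp j hj1 hj2
    -- punctured neighbourhoods
    have hpun : ∀ᶠ z in 𝓝[≠] (j : ℂ), z ∈ Om r := by
      have h2 : IsClosed (((fun k : ℕ => (k : ℂ)) '' ((Finset.Icc 1 r).erase j : Finset ℕ)) : Set ℂ) :=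
        ((Finset.finite_toSet _).image _).isClosed
      have h3 : (j : ℂ) ∈ (((fun k : ℕ => (k : ℂ)) '' ((Finset.Icc 1 r).erase j : Finset ℕ)) : Set ℂ)ᶜ := by
        rintro ⟨k, hk, he⟩
        have hk' : k ∈ (Finset.Icc 1 r).erase j := hk
        have he' : (k : ℂ) = (j : ℂ) := he
        have : k = j := by exact_mod_cast he'
        rw [Finset.mem_erase] at hk'
        exact hk'.1 this
      have h4 : (((fun k : ℕ => (k : ℂ)) '' ((Finset.Icc 1 r).erase j : Finset ℕ)) : Set ℂ)ᶜ ∈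
          𝓝[≠] (j : ℂ) := mem_nhdsWithin_of_mem_nhds (h2.isOpen_compl.mem_nhds h3)
      filter_upwards [h4, self_mem_nhdsWithin] with z hz hzj k hk1 hk2 hzk
      apply hz
      refine ⟨k, ?_, hzk.symm⟩
      show k ∈ ((Finset.Icc 1 r).erase j : Finset ℕ)
      rw [Finset.mem_erase, Finset.mem_Icc]
      refine ⟨?_, hk1, hk2⟩
      rintro rfl
      exact hzj hzk
    have hre : ∀ᶠ z in 𝓝[≠] (j : ℂ), 0 < z.re :=
      mem_nhdsWithin_of_mem_nhds ((isOpen_lt continuous_const Complex.continuous_re).mem_nhds hs)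
    -- the limit
    have hlim : ∃ L : ℂ, Tendsto (fun z => RR r z * Z z) (𝓝[≠] (j : ℂ)) (𝓝 L) := by
      have hjm : j ∈ Finset.Icc 1 r := Finset.mem_Icc.2 ⟨hj1, hj2⟩
      have e1 : ∀ z, RR r z * Z z = ((z - j) * Z z) *
          ((∏ i ∈ (Finset.Icc 1 r).erase j, ((z - (i : ℂ)) / (z + 1))) * (z + 1)⁻¹) := by
        intro z
        unfold RR
        rw [← Finset.mul_prod_erase _ _ hjm, div_eq_mul_inv]
        ring
      have h2 : ContinuousAt (fun z : ℂ =>
          (∏ i ∈ (Finset.Icc 1 r).erase j, ((z - (i : ℂ)) / (z + 1))) * (z + 1)⁻¹) (j : ℂ) := by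
        have hne := add_one_ne hs
        refine ContinuousAt.mul ?_ ?_
        · refine tendsto_finsetProd _ (fun i _ => ?_)
          exact ContinuousAt.div (by fun_prop) (by fun_prop) hne
        · exact ContinuousAt.inv₀ (by fun_prop) hne
      have h5 := hl.mul (h2.tendsto.mono_left nhdsWithin_le_nhds)
      exact ⟨_, h5.congr fun z => (e1 z).symm⟩
    have hval : Tendsto (fun z => RR r z * Z z) (𝓝[≠] (j : ℂ)) (𝓝 (ff r Z (j : ℂ))) := by
      unfold ff
      rw [if_neg hsO]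
      exact tendsto_nhds_limUnder hlim
    have hcont : ContinuousAt (ff r Z) (j : ℂ) := by
      rw [continuousAt_iff_punctured_nhds]
      refine hval.congr' ?_
      filter_upwards [hpun] with z hz
      exact (ff_of_mem hz).symm
    refine (Complex.analyticAt_of_differentiable_on_punctured_nhds_of_continuousAt ?_
      hcont).differentiableAt
    filter_upwards [hpun, hre] with z hz hz0
    exact hmem z hz hz0

/-- the growth in vertical strips -/
lemma ff_growth (ha : 0 < a) (hw : ∀ j, 0 < w j) (hc : Tay a w c) {Z : ℂ → ℂ}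
    (hZ : ∀ s ∈ Om r, DifferentiableAt ℂ Z s)
    (hs : ∀ s : ℂ, (r : ℝ) < s.re → Z s = ∑' m : Fin r → ℕ, ((lam a w m : ℝ) : ℂ) ^ (-s))
    (hp : ∀ j : ℕ, 1 ≤ j → j ≤ r →
      ∃ l : ℂ, Tendsto (fun s : ℂ => (s - j) * Z s) (𝓝[≠] (j : ℂ)) (𝓝 l)) {x0 x1 : ℝ}
    (hx0 : 0 < x0) : ∃ C : ℝ, 0 ≤ C ∧ ∀ s : ℂ, x0 ≤ s.re → s.re ≤ x1 →
      ‖ff r Z s‖ ≤ C * Real.exp (C * |s.im|) := by
  obtain ⟨C1, hC1, h1⟩ := growth2 ha hw hc x0 x1
  obtain ⟨C2, hC2, h2⟩ := inv_Gamma_le x0 x1
  obtain ⟨C3, h3⟩ := ((isCompact_Icc (a := x0) (b := x1)).reProdIm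
    (isCompact_Icc (a := (-1 : ℝ)) (b := 1))).exists_bound_of_continuousOn (f := ff r Z) (by
      intro z hz
      have hz1 : x0 ≤ z.re := hz.1.1
      exact (ff_diff hZ hp (lt_of_lt_of_le hx0 hz1)).continuousAt.continuousWithinAt)
  set C : ℝ := Real.pi + |C3| + ((r : ℝ) + 2) ^ r * (C1 * C2) with hC
  have hCpi : Real.pi ≤ C := by
    have : 0 ≤ |C3| + ((r : ℝ) + 2) ^ r * (C1 * C2) := by positivity
    rw [hC]; linarith
  have hC0 : 0 ≤ C := by linarith [Real.pi_pos]
  refine ⟨C, hC0, fun s hs0 hs1 => ?_⟩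
  have hsre : 0 < s.re := lt_of_lt_of_le hx0 hs0
  have hexp1 : 1 ≤ Real.exp (C * |s.im|) := Real.one_le_exp (by positivity)
  rcases le_or_gt 1 |s.im| with him | him
  · have hsO : s ∈ Om r := by
      intro k _ _ hk
      rw [hk] at him
      simp at him
      linarith
    have him0 : s.im ≠ 0 := by
      intro h
      rw [h, abs_zero] at him
      linarith
    have hG : Gamma s ≠ 0 := by
      apply Complex.Gamma_ne_zero
      intro m hm
      have := congrArg Complex.im hm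
      simp at this
      exact him0 this
    rw [ff_of_mem hsO, eq_FF ha hw hc hZ hs s hsO]
    have e1 : FF a w c s = (Gamma s * FF a w c s) * (Gamma s)⁻¹ := by
      field_simp
    rw [e1, norm_mul, norm_mul]
    have h4 := h1 s hs0 hs1 him
    have h5 := h2 s hs0 hs1 him
    calc ‖RR r s‖ * (‖Gamma s * FF a w c s‖ * ‖(Gamma s)⁻¹‖)
        ≤ ((r : ℝ) + 2) ^ r * (C1 * (C2 * Real.exp (Real.pi * |s.im|))) :=
          mul_le_mul (RR_le hsre) (mul_le_mul h4 h5 (norm_nonneg _) hC1)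
            (mul_nonneg (norm_nonneg _) (norm_nonneg _)) (by positivity)
      _ = (((r : ℝ) + 2) ^ r * (C1 * C2)) * Real.exp (Real.pi * |s.im|) := by ring
      _ ≤ C * Real.exp (C * |s.im|) := by
          apply mul_le_mul _ _ (Real.exp_pos _).le hC0
          · have h6 := abs_nonneg C3
            have h7 := Real.pi_pos
            rw [hC]; linarith
          · exact Real.exp_le_exp.2 (mul_le_mul_of_nonneg_right hCpi (abs_nonneg _))
  · have h4 := h3 s ⟨⟨hs0, hs1⟩, ⟨by linarith [neg_abs_le s.im], by linarith [le_abs_self s.im]⟩⟩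
    have h6 : |C3| ≤ C := by
      have : 0 ≤ ((r : ℝ) + 2) ^ r * (C1 * C2) := by positivity
      rw [hC]; linarith [Real.pi_pos]
    calc ‖ff r Z s‖ ≤ C3 := h4
      _ ≤ |C3| := le_abs_self _
      _ ≤ C * 1 := by linarith
      _ ≤ C * Real.exp (C * |s.im|) := mul_le_mul_of_nonneg_left hexp1 hC0

/-- the bound on a line of absolute convergence -/
lemma ff_line (ha : 0 < a) (hw : ∀ j, 0 < w j) (hc : Tay a w c) {Z : ℂ → ℂ}
    (hZ : ∀ s ∈ Om r, DifferentiableAt ℂ Z s)
    (hs : ∀ s : ℂ, (r : ℝ) < s.re → Z s = ∑' m : Fin r → ℕ, ((lam a w m : ℝ) : ℂ) ^ (-s))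
    {b : ℝ} (hb : (r : ℝ) < b) : ∃ M : ℝ, 0 ≤ M ∧ ∀ t : ℝ, ‖ff r Z ((b : ℂ) + t * I)‖ ≤ M := by
  have hr0 : (0 : ℝ) ≤ r := Nat.cast_nonneg r
  have hpos : 0 ≤ ∑' m : Fin r → ℕ, (lam a w m) ^ (-b) :=
    tsum_nonneg fun m => Real.rpow_nonneg (lam_pos ha hw m).le _
  refine ⟨((r : ℝ) + 2) ^ r * ∑' m : Fin r → ℕ, (lam a w m) ^ (-b), by positivity, fun t => ?_⟩
  have hre : ((b : ℂ) + t * I).re = b := by simp
  have hO : ((b : ℂ) + t * I) ∈ Om r := mem_Om_of_re (by rw [hre]; exact hb)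
  rw [ff_of_mem hO, eq_FF ha hw hc hZ hs _ hO, norm_mul]
  exact mul_le_mul (RR_le (by rw [hre]; linarith)) (FF_line ha hw hc hb t) (norm_nonneg _)
    (by positivity)

end Pool.Agent.T6.H49.BZ
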