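import Pool.Agent.T6.H49.BZ.Interp
import Pool.Agent.T6.H49.BZ.Zeta
import Pool.Agent.T6.H49.BZ.Comb
import Pool.Agent.T6.H60.BD.F
import Pool.Agent.T6.H60.BD.R

/-!
# Higher moments of the Barnes multiple zeta-function from the mean square
-/

set_option autoImplicit false

open Finset Filter Topology MeasureTheory Complex Set Asymptotics

namespace Pool.Agent.T6.H49.BZ

open Pool.Agent.H131R5.BZ Pool.Agent.Y930.Bz Pool.Agent.T6.H60.BC Pool.Agent.T6.H60.BD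

variable {r : ℕ} {a : ℝ} {w : Fin r → ℝ} {Z : ℂ → ℂ}

/-- the bound for the moments -/
def MB (Z : ℂ → ℂ) (k : ℕ) (σ β : ℝ) : Prop :=
  ∀ ε : ℝ, 0 < ε → (fun T : ℝ => mom Z k σ T) =O[atTop] fun T : ℝ => T ^ (β + ε)

theorem mb1_iff (ha : 0 < a) (hw : ∀ j, 0 < w j)
    (hZ : ∀ s : ℂ, (∀ j : ℕ, 1 ≤ j → j ≤ r → s ≠ j) → DifferentiableAt ℂ Z s)
    (hs : ∀ s : ℂ, (r : ℝ) < s.re →
      Z s = ∑' m : Fin r → ℕ, ((a + ∑ i, (m i : ℝ) * w i : ℝ) : ℂ) ^ (-s)) {σ β : ℝ}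
    (hσ : 1 / 2 ≤ σ) (hβ : 1 ≤ β) : MB Z 1 σ β ↔ PermB w (2 * σ + β) β := by
  obtain ⟨c, hc⟩ := exists_taylor a hw
  have e1 := mom_bigO_iff ha hw hc hZ hs σ hβ
  have e2 := mom_iff ha hw hc hσ hβ
  have e3 := crit_pt_iff hw hσ hβ
  exact e1.trans (e2.trans (e3.trans (pt_perm_iff hσ hβ)))

/-- the mean square bound persists to the right -/
theorem mb1_mono (ha : 0 < a) (hw : ∀ j, 0 < w j)
    (hZ : ∀ s : ℂ, (∀ j : ℕ, 1 ≤ j → j ≤ r → s ≠ j) → DifferentiableAt ℂ Z s)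
    (hs : ∀ s : ℂ, (r : ℝ) < s.re →
      Z s = ∑' m : Fin r → ℕ, ((a + ∑ i, (m i : ℝ) * w i : ℝ) : ℂ) ^ (-s)) {σ σ' β : ℝ}
    (hσ : 1 / 2 ≤ σ) (hβ : 1 ≤ β) (hσσ' : σ ≤ σ') (h : MB Z 1 σ β) : MB Z 1 σ' β := by
  rw [mb1_iff ha hw hZ hs (hσ.trans hσσ') hβ, ← pt_perm_iff (hσ.trans hσσ') hβ]
  rw [mb1_iff ha hw hZ hs hσ hβ, ← pt_perm_iff hσ hβ] at h
  intro ε hε
  obtain ⟨C, hC, hb⟩ := h ε hε
  refine ⟨C, hC, fun y δ hy hδ hδ1 => (hb y δ hy hδ hδ1).trans ?_⟩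
  have h2 : δ ^ (-(2 * σ)) ≤ δ ^ (-(2 * σ')) :=
    Real.rpow_le_rpow_of_exponent_ge hδ hδ1 (by linarith)
  have h3 : 0 ≤ (y / δ) ^ (β + ε) := by positivity
  gcongr

/-- the mean square bound a little to the left -/
theorem mb1_left (ha : 0 < a) (hw : ∀ j, 0 < w j)
    (hZ : ∀ s : ℂ, (∀ j : ℕ, 1 ≤ j → j ≤ r → s ≠ j) → DifferentiableAt ℂ Z s)
    (hs : ∀ s : ℂ, (r : ℝ) < s.re →
      Z s = ∑' m : Fin r → ℕ, ((a + ∑ i, (m i : ℝ) * w i : ℝ) : ℂ) ^ (-s)) {σ β ρ : ℝ}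
    (hρ : 0 ≤ ρ) (hσ : 1 / 2 ≤ σ - ρ) (hβ : 1 ≤ β) (h : MB Z 1 σ β) :
    MB Z 1 (σ - ρ) (β + 2 * ρ) := by
  rw [mb1_iff ha hw hZ hs hσ (by linarith)]
  rw [mb1_iff ha hw hZ hs (by linarith) hβ] at h
  have e : 2 * (σ - ρ) + (β + 2 * ρ) = 2 * σ + β := by ring
  rw [e]
  intro ε hε
  obtain ⟨c, hc, hb⟩ := h ε hε
  refine ⟨c, hc, fun y hy => ?_⟩
  obtain ⟨π, hπ⟩ := hb y hy
  refine ⟨π, le_trans ?_ hπ⟩
  refine mul_le_mul_of_nonneg_left ?_ hc.le
  exact Real.rpow_le_rpow_of_exponent_le hy (by linarith)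

/-- a bound for all large `T` gives a bound for all `T ≥ 1` -/
lemma mom_all (hZ : ∀ s : ℂ, (∀ j : ℕ, 1 ≤ j → j ≤ r → s ≠ j) → DifferentiableAt ℂ Z s)
    {k : ℕ} {σ B : ℝ} (hB : 0 ≤ B)
    (h : (fun T : ℝ => mom Z k σ T) =O[atTop] fun T : ℝ => T ^ B) :
    ∃ A : ℝ, 0 ≤ A ∧ ∀ T : ℝ, 1 ≤ T → mom Z k σ T ≤ A * T ^ B := by
  obtain ⟨C, hC⟩ := h.bound
  obtain ⟨T₀, hT₀⟩ := eventually_atTop.1 hC
  set T₁ : ℝ := max 1 T₀ with hT₁
  have h1 : (1 : ℝ) ≤ T₁ := le_max_left _ _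
  have h3 : ∀ T, T₁ ≤ T → mom Z k σ T ≤ |C| * T ^ B := by
    intro T hT
    have hT1 : 1 ≤ T := h1.trans hT
    have h2 := hT₀ T ((le_max_right _ _).trans hT)
    rw [Real.norm_of_nonneg (mom_nonneg Z k σ hT1),
      Real.norm_of_nonneg (by positivity : (0 : ℝ) ≤ T ^ B)] at h2
    exact h2.trans (mul_le_mul_of_nonneg_right (le_abs_self C) (by positivity))
  refine ⟨|C| * T₁ ^ B, by positivity, fun T hT => ?_⟩
  have hTB : 1 ≤ T ^ B := Real.one_le_rpow hT hB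
  have hT1B : 1 ≤ T₁ ^ B := Real.one_le_rpow h1 hB
  rcases le_total T₁ T with h4 | h4
  · refine (h3 T h4).trans ?_
    refine mul_le_mul_of_nonneg_right ?_ (by positivity)
    exact le_mul_of_one_le_right (abs_nonneg C) hT1B
  · have h5 : mom Z k σ T ≤ mom Z k σ T₁ := by
      unfold mom
      refine intervalIntegral.integral_mono_interval le_rfl hT h4
        (ae_of_all _ fun t => by positivity) ?_
      rw [intervalIntegrable_iff_integrableOn_Icc_of_le h1]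
      exact mom_intOn hZ σ _ T₁
    calc mom Z k σ T ≤ _ := h5
      _ ≤ |C| * T₁ ^ B := h3 T₁ le_rfl
      _ ≤ |C| * T₁ ^ B * T ^ B := le_mul_of_one_le_right (by positivity) hTB

lemma Z_mem (σ : ℝ) {t : ℝ} (ht : 1 ≤ t) : ((σ : ℂ) + t * I) ∈ Om r := by
  intro k _ _ h
  have := congrArg Complex.im h
  simp at this
  linarith

lemma ff_cont (hZ : ∀ s : ℂ, (∀ j : ℕ, 1 ≤ j → j ≤ r → s ≠ j) → DifferentiableAt ℂ Z s)
    (hp : ∀ j : ℕ, 1 ≤ j → j ≤ r →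
      ∃ l : ℂ, Tendsto (fun s : ℂ => (s - j) * Z s) (𝓝[≠] (j : ℂ)) (𝓝 l)) {σ : ℝ} (hσ : 0 < σ) :
    Continuous fun t : ℝ => ff r Z ((σ : ℂ) + t * I) := by
  rw [continuous_iff_continuousAt]
  intro t
  have h1 : DifferentiableAt ℂ (ff r Z) ((σ : ℂ) + t * I) :=
    ff_diff (fun s hs => hZ s hs) hp (by simpa using hσ)
  exact ContinuousAt.comp (g := ff r Z) (f := fun t : ℝ => (σ : ℂ) + t * I) h1.continuousAt
    (by fun_prop)

/-- comparison of the moments of the zeta-function and of `ff` -/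
lemma mom_le_ff (hZ : ∀ s : ℂ, (∀ j : ℕ, 1 ≤ j → j ≤ r → s ≠ j) → DifferentiableAt ℂ Z s)
    (hp : ∀ j : ℕ, 1 ≤ j → j ≤ r →
      ∃ l : ℂ, Tendsto (fun s : ℂ => (s - j) * Z s) (𝓝[≠] (j : ℂ)) (𝓝 l)) {σ : ℝ} (hσ : 0 < σ)
    (k : ℕ) : ∃ K : ℝ, 0 ≤ K ∧ ∀ T : ℝ, 1 ≤ T →
      mom Z k σ T ≤ K * ∫ t in (1 : ℝ)..T, ‖ff r Z ((σ : ℂ) + t * I)‖ ^ (2 * k) := by
  set κ : ℝ := (σ + 2)⁻¹ ^ r with hκ
  have hκ0 : 0 < κ := by rw [hκ]; positivity
  refine ⟨(κ⁻¹) ^ (2 * k), by positivity, fun T hT => ?_⟩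
  unfold mom
  rw [← intervalIntegral.integral_const_mul]
  refine intervalIntegral.integral_mono_on hT ?_ ?_ fun t ht => ?_
  · rw [intervalIntegrable_iff_integrableOn_Icc_of_le hT]
    exact mom_intOn hZ σ _ T
  · exact (((ff_cont hZ hp hσ).norm.pow _).const_mul _).intervalIntegrable _ _
  · have h1 : ff r Z ((σ : ℂ) + t * I) = RR r ((σ : ℂ) + t * I) * Z ((σ : ℂ) + t * I) :=
      ff_of_mem (Z_mem σ ht.1)
    have h2 : κ ≤ ‖RR r ((σ : ℂ) + t * I)‖ :=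
      RR_ge (by simpa using hσ) (by simp) (by simpa using ht.1)
    rw [← mul_pow]
    refine pow_le_pow_left₀ (norm_nonneg _) ?_ _
    rw [h1, norm_mul, inv_mul_eq_div, le_div_iff₀ hκ0, mul_comm]
    exact mul_le_mul_of_nonneg_right h2 (norm_nonneg _)

lemma ff_le_mom (hZ : ∀ s : ℂ, (∀ j : ℕ, 1 ≤ j → j ≤ r → s ≠ j) → DifferentiableAt ℂ Z s)
    (hp : ∀ j : ℕ, 1 ≤ j → j ≤ r →
      ∃ l : ℂ, Tendsto (fun s : ℂ => (s - j) * Z s) (𝓝[≠] (j : ℂ)) (𝓝 l)) {σ : ℝ} (hσ : 0 < σ) :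
    ∃ K : ℝ, 0 ≤ K ∧ ∀ T : ℝ, 1 ≤ T →
      ∫ t in (1 : ℝ)..T, ‖ff r Z ((σ : ℂ) + t * I)‖ ^ 2 ≤ K * mom Z 1 σ T := by
  set κ : ℝ := ((r : ℝ) + 2) ^ r with hκ
  refine ⟨κ ^ 2, by positivity, fun T hT => ?_⟩
  unfold mom
  rw [← intervalIntegral.integral_const_mul]
  refine intervalIntegral.integral_mono_on hT ?_ ?_ fun t ht => ?_
  · exact ((ff_cont hZ hp hσ).norm.pow _).intervalIntegrable _ _
  · refine IntervalIntegrable.const_mul ?_ _
    rw [intervalIntegrable_iff_integrableOn_Icc_of_le hT]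
    exact mom_intOn hZ σ _ T
  · have h1 : ff r Z ((σ : ℂ) + t * I) = RR r ((σ : ℂ) + t * I) * Z ((σ : ℂ) + t * I) :=
      ff_of_mem (Z_mem σ ht.1)
    rw [mul_one, ← mul_pow, h1, norm_mul]
    refine pow_le_pow_left₀ (by positivity) ?_ _
    exact mul_le_mul_of_nonneg_right (RR_le (by simpa using hσ)) (norm_nonneg _)

/-- higher moments from the mean square -/
theorem mom_interp (ha : 0 < a) (hw : ∀ j, 0 < w j)
    (hZ : ∀ s : ℂ, (∀ j : ℕ, 1 ≤ j → j ≤ r → s ≠ j) → DifferentiableAt ℂ Z s)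
    (hp : ∀ j : ℕ, 1 ≤ j → j ≤ r →
      ∃ l : ℂ, Tendsto (fun s : ℂ => (s - j) * Z s) (𝓝[≠] (j : ℂ)) (𝓝 l))
    (hs : ∀ s : ℂ, (r : ℝ) < s.re →
      Z s = ∑' m : Fin r → ℕ, ((a + ∑ i, (m i : ℝ) * w i : ℝ) : ℂ) ^ (-s)) {σ₁ β : ℝ}
    (hσ₁ : 1 / 2 < σ₁) (hβ : 1 ≤ β) (hM : MB Z 1 σ₁ β) {k : ℕ} (hk : 1 ≤ k) {σ : ℝ}
    (hσ : (r : ℝ) - (r - σ₁) / k ≤ σ) : MB Z k σ β := by
  intro ε hε
  obtain ⟨c, hc⟩ := exists_taylor a hw
  have hk1 : (1 : ℝ) ≤ k := by exact_mod_cast hk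
  have hk0 : (0 : ℝ) < k := by linarith
  have hr0 : (0 : ℝ) ≤ r := Nat.cast_nonneg r
  have hσσ : (k : ℝ) * (r - σ) ≤ r - σ₁ := by
    have h1 : (r : ℝ) - σ ≤ (r - σ₁) / k := by linarith
    rw [le_div_iff₀ hk0] at h1
    linarith
  have hB0 : 0 ≤ β + ε := by linarith
  -- it is enough to bound the moments of `ff`
  suffices hsuff : 0 < σ ∧ ∃ C : ℝ, 0 ≤ C ∧ ∀ T : ℝ, 1 ≤ T →
      ∫ t in (1 : ℝ)..T, ‖ff r Z ((σ : ℂ) + t * I)‖ ^ (2 * k) ≤ C * T ^ (β + ε) by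
    obtain ⟨hσ0, C, hC, hb⟩ := hsuff
    obtain ⟨K, hK, hb2⟩ := mom_le_ff hZ hp hσ0 k
    refine IsBigO.of_bound (K * C) ?_
    filter_upwards [eventually_ge_atTop 1] with T hT
    rw [Real.norm_of_nonneg (mom_nonneg Z k σ hT),
      Real.norm_of_nonneg (by positivity : (0 : ℝ) ≤ T ^ (β + ε))]
    calc mom Z k σ T ≤ _ := hb2 T hT
      _ ≤ K * (C * T ^ (β + ε)) := mul_le_mul_of_nonneg_left (hb T hT) hK
      _ = _ := by ring
  have hTβ : ∀ T : ℝ, 1 ≤ T → T ≤ T ^ (β + ε) := by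
    intro T hT
    calc T = T ^ (1 : ℝ) := (Real.rpow_one T).symm
      _ ≤ _ := Real.rpow_le_rpow_of_exponent_le hT (by linarith)
  rcases lt_or_ge (r : ℝ) σ with hrσ | hrσ
  · have hσ0 : 0 < σ := by linarith
    refine ⟨hσ0, ?_⟩
    obtain ⟨M, hM0, hMb⟩ := ff_line ha hw hc (fun s h => hZ s h) (fun s h => hs s h) hrσ
    refine ⟨M ^ (2 * k), by positivity, fun T hT => ?_⟩
    calc ∫ t in (1 : ℝ)..T, ‖ff r Z ((σ : ℂ) + t * I)‖ ^ (2 * k)
        ≤ ∫ _t in (1 : ℝ)..T, M ^ (2 * k) := by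
          refine intervalIntegral.integral_mono_on hT
            (((ff_cont hZ hp hσ0).norm.pow _).intervalIntegrable _ _)
            intervalIntegrable_const fun t _ => ?_
          exact pow_le_pow_left₀ (norm_nonneg _) (hMb t) _
      _ = (T - 1) * M ^ (2 * k) := by
          rw [intervalIntegral.integral_const, smul_eq_mul]
      _ ≤ T ^ (β + ε) * M ^ (2 * k) := by
          refine mul_le_mul_of_nonneg_right ?_ (by positivity)
          have := hTβ T hT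
          linarith
      _ = _ := by ring
  · -- the main case
    set η : ℝ := min 1 (min (ε / (4 * k)) ((σ₁ - 1 / 2) / k)) with hη
    have hη0 : 0 < η := by
      rw [hη]
      refine lt_min one_pos (lt_min (by positivity) (div_pos (by linarith) hk0))
    have hη2 : k * η ≤ ε / 4 := by
      have h1 : η ≤ ε / (4 * k) := (min_le_right _ _).trans (min_le_left _ _)
      rw [le_div_iff₀ (by positivity)] at h1
      linarith
    have hη3 : k * η ≤ σ₁ - 1 / 2 := by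
      have h1 : η ≤ (σ₁ - 1 / 2) / k := (min_le_right _ _).trans (min_le_right _ _)
      rw [le_div_iff₀ hk0] at h1
      linarith
    set b : ℝ := r + η with hb
    set ρ : ℝ := k * η - η with hρ
    have hρ0 : 0 ≤ ρ := by rw [hρ]; nlinarith
    set a' : ℝ := b - k * (b - σ) with ha'
    have ha'1 : σ₁ - ρ ≤ a' := by rw [ha', hb, hρ]; nlinarith
    have hhalf : 1 / 2 ≤ σ₁ - ρ := by rw [hρ]; linarith
    have ha'0 : 0 < a' := by linarith
    have hab : a' < b := by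
      have : 0 < k * (b - σ) := mul_pos hk0 (by rw [hb]; linarith)
      rw [ha']
      linarith
    have hσ0 : 0 < σ := by
      have h1 : (b - σ) ≤ k * (b - σ) := by
        have : 0 < b - σ := by rw [hb]; linarith
        nlinarith
      have : b - σ ≤ b - a' := by rw [ha']; linarith
      linarith
    refine ⟨hσ0, ?_⟩
    have hms := mb1_mono ha hw hZ hs hhalf (by linarith) ha'1
      (mb1_left ha hw hZ hs hρ0 hhalf hβ hM)
    have hB' : β + 2 * ρ + ε / 2 ≤ β + ε := by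
      rw [hρ]
      linarith
    obtain ⟨A, hA, hAb⟩ := mom_all hZ (by linarith) (hms (ε / 2) (by positivity))
    obtain ⟨K, hK, hKb⟩ := ff_le_mom hZ hp ha'0
    obtain ⟨C₀, hC₀, hgr⟩ := ff_growth ha hw hc (fun s h => hZ s h) (fun s h => hs s h) hp
      (x1 := b) ha'0
    obtain ⟨M, hM0, hMb⟩ := ff_line ha hw hc (fun s h => hZ s h) (fun s h => hs s h)
      (b := b) (by rw [hb]; linarith)
    obtain ⟨C, hC, hfin⟩ := core ha'0 hab (fun s h => ff_diff (fun s h => hZ s h) hp h) hC₀ hgr hM0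
      hMb (A := K * A) (B := β + ε) (by positivity) hB0 (fun T hT => by
        refine (hKb T hT).trans ?_
        rw [mul_assoc]
        refine mul_le_mul_of_nonneg_left ((hAb T hT).trans ?_) hK
        refine mul_le_mul_of_nonneg_left ?_ hA
        exact Real.rpow_le_rpow_of_exponent_le hT hB') hk (σ := σ) (by rw [ha']; ring)
    refine ⟨C * 2, by positivity, fun T hT => (hfin T hT).trans ?_⟩
    have := hTβ T hT
    rw [mul_assoc]
    refine mul_le_mul_of_nonneg_left ?_ hC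
    linarith

/-- a bound for a higher moment gives a stronger bound for the mean square -/
theorem mb1_of_mb (hZ : ∀ s : ℂ, (∀ j : ℕ, 1 ≤ j → j ≤ r → s ≠ j) → DifferentiableAt ℂ Z s)
    {σ β : ℝ} (hβ : 1 ≤ β) {k : ℕ} (hk : 1 ≤ k) (h : MB Z k σ β) :
    MB Z 1 σ (1 + (β - 1) / k) := by
  intro ε hε
  have hk1 : (1 : ℝ) ≤ k := by exact_mod_cast hk
  have hk0 : (0 : ℝ) < k := by linarith
  obtain ⟨C, hC⟩ := (h ε hε).bound
  set γ : ℝ := (β - 1) / k with hγ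
  have hγ0 : 0 ≤ γ := by rw [hγ]; exact div_nonneg (by linarith) hk0.le
  have hkγ : k * γ = β - 1 := by rw [hγ]; field_simp
  refine IsBigO.of_bound (1 + |C|) ?_
  filter_upwards [hC, eventually_ge_atTop 1] with T h1 hT
  have hT0 : 0 < T := by linarith
  rw [Real.norm_of_nonneg (mom_nonneg Z k σ hT),
    Real.norm_of_nonneg (by positivity : (0 : ℝ) ≤ T ^ (β + ε))] at h1
  rw [Real.norm_of_nonneg (mom_nonneg Z 1 σ hT),
    Real.norm_of_nonneg (by positivity : (0 : ℝ) ≤ T ^ (1 + γ + ε))]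
  set lam : ℝ := T ^ γ with hlam
  have hlam0 : 0 < lam := by rw [hlam]; positivity
  have hpt : ∀ x : ℝ, 0 ≤ x → x ^ (2 * 1) ≤ lam + (lam ^ (k - 1))⁻¹ * x ^ (2 * k) := by
    intro x hx
    rw [mul_one, pow_mul]
    set u : ℝ := x ^ 2 with hu
    have hu0 : 0 ≤ u := by rw [hu]; positivity
    rcases le_total u lam with h2 | h2
    · have : 0 ≤ (lam ^ (k - 1))⁻¹ * u ^ k := by positivity
      linarith
    · have h3 : u ^ k = u ^ (k - 1) * u := by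
        rw [← pow_succ]
        congr 1
        omega
      have h4 : lam ^ (k - 1) ≤ u ^ (k - 1) := pow_le_pow_left₀ hlam0.le h2 _
      have h5 : u ≤ (lam ^ (k - 1))⁻¹ * u ^ k := by
        rw [h3, ← mul_assoc]
        refine le_mul_of_one_le_left hu0 ?_
        rw [inv_mul_eq_div, one_le_div (by positivity)]
        exact h4
      linarith
  have i1 : IntervalIntegrable (fun t : ℝ => ‖Z ((σ : ℂ) + t * Complex.I)‖ ^ (2 * k)) volume 1 T := by
    rw [intervalIntegrable_iff_integrableOn_Icc_of_le hT]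
    exact mom_intOn hZ σ _ T
  have i2 : IntervalIntegrable (fun t : ℝ => ‖Z ((σ : ℂ) + t * Complex.I)‖ ^ (2 * 1)) volume 1 T := by
    rw [intervalIntegrable_iff_integrableOn_Icc_of_le hT]
    exact mom_intOn hZ σ _ T
  have h2 : mom Z 1 σ T ≤ (T - 1) * lam + (lam ^ (k - 1))⁻¹ * mom Z k σ T := by
    unfold mom
    calc _ ≤ ∫ t in (1 : ℝ)..T,
          (lam + (lam ^ (k - 1))⁻¹ * ‖Z ((σ : ℂ) + t * Complex.I)‖ ^ (2 * k)) := by
          refine intervalIntegral.integral_mono_on hT i2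
            (intervalIntegrable_const.add (i1.const_mul _)) fun t _ => ?_
          exact hpt _ (norm_nonneg _)
      _ = _ := by
          rw [intervalIntegral.integral_add intervalIntegrable_const (i1.const_mul _),
            intervalIntegral.integral_const, intervalIntegral.integral_const_mul, smul_eq_mul]
  have h3 : (T - 1) * lam ≤ T ^ (1 + γ + ε) := by
    calc (T - 1) * lam ≤ T * lam := mul_le_mul_of_nonneg_right (by linarith) hlam0.le
      _ = T ^ (1 + γ) := by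
          rw [hlam, Real.rpow_add hT0, Real.rpow_one]
      _ ≤ _ := Real.rpow_le_rpow_of_exponent_le hT (by linarith)
  have h4 : (lam ^ (k - 1))⁻¹ * mom Z k σ T ≤ |C| * T ^ (1 + γ + ε) := by
    have e1 : (lam ^ (k - 1))⁻¹ = T ^ (-((k - 1) * γ)) := by
      rw [hlam, ← Real.rpow_natCast, ← Real.rpow_mul hT0.le, Real.rpow_neg hT0.le,
        Nat.cast_sub hk]
      congr 2
      push_cast
      ring
    rw [e1]
    calc T ^ (-((k - 1) * γ)) * mom Z k σ T ≤ T ^ (-((k - 1) * γ)) * (|C| * T ^ (β + ε)) := by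
          refine mul_le_mul_of_nonneg_left (h1.trans ?_) (by positivity)
          exact mul_le_mul_of_nonneg_right (le_abs_self C) (by positivity)
      _ = |C| * (T ^ (-((k - 1) * γ)) * T ^ (β + ε)) := by ring
      _ = |C| * T ^ (1 + γ + ε) := by
          rw [← Real.rpow_add hT0]
          congr 2
          have : (k - 1) * γ = β - 1 - γ := by rw [← hkγ]; ring
          rw [this]
          ring
  rw [add_mul, one_mul]
  linarith

end Pool.Agent.T6.H49.BZ
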