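import Pool.Agent.TH419.WI.Rel
import Pool.Agent.T6.H60.BD.G

/-!
# Schmidt's theorem on simultaneous approximation, for real multiples of real algebraic numbers
-/

set_option autoImplicit false

open Finset Filter Topology

namespace Pool.Agent.T6.H49.BZ

open Pool.Agent.TH419.WI Pool.Agent.T6.H60.BC Pool.Agent.T6.H60.BD

/-- the subspace theorem for real algebraic forms and integer points -/
theorem sub_alg {n : ℕ} (hn : 1 ≤ n) (M : Matrix (Fin n) (Fin n) ℝ)
    (halg : ∀ i j, IsAlgebraic ℚ (M i j)) (hdetM : M.det ≠ 0)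
    (X : ℕ → ℝ) (hX : Tendsto X atTop atTop) (c γ : ℝ) (hγ : 0 < γ)
    (x : ℕ → Fin n → ℤ) (A : ℕ → Fin n → ℝ)
    (hx : ∀ᶠ t in atTop, x t ≠ 0) (hA : ∀ᶠ t in atTop, ∀ l, 0 < A t l)
    (hAc : ∀ᶠ t in atTop, ∀ l, |Real.log (A t l)| ≤ c * X t)
    (hAs : ∀ᶠ t in atTop, ∑ l, Real.log (A t l) + γ * X t ≤ 0)
    (hs : ∀ᶠ t in atTop, ∀ l, |∑ j, M l j * x t j| ≤ A t l) :
    ∃ y : Fin n → ℤ, y ≠ 0 ∧ ∃ᶠ t in atTop, ∑ l, y l * x t l = 0 := by
  classical
  -- the number field
  set F : IntermediateField ℚ ℝ :=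
    IntermediateField.adjoin ℚ (Set.range fun p : Fin n × Fin n => M p.1 p.2) with hFdef
  have hF : FiniteDimensional ℚ F := by
    apply IntermediateField.finiteDimensional_adjoin
    rintro x ⟨i, rfl⟩
    exact (halg i.1 i.2).isIntegral
  have : NumberField F := { to_charZero := inferInstance, to_finiteDimensional := hF }
  let cc : Fin n × Fin n → F := fun i =>
    ⟨M i.1 i.2, IntermediateField.subset_adjoin ℚ _ ⟨i, rfl⟩⟩
  obtain ⟨Nn, hNn⟩ := IsLocalization.exist_integer_multiples_of_finite
    (nonZeroDivisors (NumberField.RingOfIntegers F)) cc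
  have hN0 : (Nn : NumberField.RingOfIntegers F) ≠ 0 := nonZeroDivisors.ne_zero Nn.2
  have hN' : ∀ i, ∃ M : NumberField.RingOfIntegers F,
      algebraMap (NumberField.RingOfIntegers F) F M
        = algebraMap (NumberField.RingOfIntegers F) F (Nn : NumberField.RingOfIntegers F)
          * cc i := by
    intro i
    obtain ⟨M, hM⟩ := hNn i
    refine ⟨M, ?_⟩
    rw [hM, Algebra.smul_def]
  choose d hd using hN'
  have hinj : Function.Injective (algebraMap (NumberField.RingOfIntegers F) F) :=
    IsFractionRing.injective _ _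
  set ψ : NumberField.RingOfIntegers F →+* ℝ :=
    (algebraMap F ℝ).comp (algebraMap (NumberField.RingOfIntegers F) F) with hψ
  set φ : NumberField.RingOfIntegers F →+* ℂ := Complex.ofRealHom.comp ψ with hφ
  set ν : ℝ := ψ (Nn : NumberField.RingOfIntegers F) with hν
  have hψinj : Function.Injective ψ := (algebraMap F ℝ).injective.comp hinj
  have hν0 : ν ≠ 0 := by
    intro h
    apply hN0
    apply hψinj
    rw [map_zero]
    exact h
  have hνp : 0 < |ν| := abs_pos.2 hν0
  have hψd : ∀ i, ψ (d i) = ν * M i.1 i.2 := by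
    intro i
    have h1 := congrArg (algebraMap F ℝ) (hd i)
    rw [map_mul] at h1
    exact h1
  set M0 : Matrix (Fin n) (Fin n) (NumberField.RingOfIntegers F) := fun i j => d (i, j) with hM0
  have hdet : M0.det ≠ 0 := by
    intro h0
    have h1 : ψ M0.det = (ν • M).det := by
      rw [RingHom.map_det]
      congr 1
      ext i j
      exact hψd (i, j)
    rw [h0, map_zero, Matrix.det_smul] at h1
    exact mul_ne_zero (pow_ne_zero _ hν0) hdetM h1.symm
  have hre : ∀ z, ‖φ z‖ = |ψ z| := by
    intro z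
    rw [hφ, RingHom.comp_apply, Complex.ofRealHom_eq_coe, Complex.norm_real, Real.norm_eq_abs]
  -- the constants
  set K : ℝ := |Real.log (|ν|)| with hK
  have hK0 : 0 ≤ K := abs_nonneg _
  set c0 : ℝ := 1 + K + |c| with hc0
  have hmon : ∀ g e : Fin 0 → ℕ, mon (k := 0) g e = 1 := by
    intro g e
    simp [mon]
  have hev1 : ∀ᶠ t in atTop, (1 : ℝ) ≤ X t := hX.eventually_ge_atTop 1
  have hev2 : ∀ᶠ t in atTop, (n : ℝ) * Real.log |ν| ≤ γ / 2 * X t := by
    have h1 : Tendsto (fun t => γ / 2 * X t) atTop atTop := hX.const_mul_atTop (by positivity)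
    exact h1.eventually_ge_atTop _
  have key := subDiag (NumberField.RingOfIntegers F) φ hn (k := 0) (fun v => v.elim0)
    (fun v => v.elim0) M0 hdet
    (fun i j => by
      rw [hφ, RingHom.comp_apply]
      exact Complex.ofReal_im _)
    c0 (γ / 2) (by rw [hc0]; have := abs_nonneg c; linarith) (by positivity) X hX
    (fun _ _ v => v.elim0)
    (fun t l => |ν| * A t l)
    x
    (by
      filter_upwards [hev1] with t ht
      simp only [hmon]
      have : 0 ≤ c0 * X t := by
        have : 0 ≤ c0 := by rw [hc0]; have := abs_nonneg c; linarith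
        exact mul_nonneg this (by linarith)
      simpa using this)
    (by
      filter_upwards [hA] with t ht l
      exact mul_pos hνp (ht l))
    (by
      filter_upwards [hev1, hA, hAc] with t ht h1 h2 l
      rw [Real.log_mul hνp.ne' (h1 l).ne']
      calc |Real.log (|ν|) + Real.log (A t l)| ≤ K + |Real.log (A t l)| := abs_add_le _ _
        _ ≤ K * X t + |c| * X t := by
            refine add_le_add ?_ ((h2 l).trans ?_)
            · exact le_mul_of_one_le_right hK0 ht
            · exact mul_le_mul_of_nonneg_right (le_abs_self c) (by linarith)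
        _ ≤ c0 * X t := by
            rw [hc0]
            nlinarith)
    (by
      filter_upwards [hev1, hev2, hA, hAs] with t ht ht2 h1 h2
      simp only [hmon]
      have h3 : ∑ l, Real.log (|ν| * A t l) = n * Real.log |ν| + ∑ l, Real.log (A t l) := by
        rw [Finset.sum_congr rfl fun l _ => Real.log_mul hνp.ne' (h1 l).ne',
          Finset.sum_add_distrib]
        simp
      rw [h3]
      have h4 : ∑ _l : Fin n, Real.log (((1 : ℤ) : ℤ) : ℝ) = 0 := by simp
      rw [h4]
      linarith)
    hx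
    (by
      filter_upwards [hs] with t ht l
      simp only [hmon]
      rw [hre, map_sum]
      have h2 : ∑ j, ψ (M0 l j * (((1 : ℤ) * x t j : ℤ) : NumberField.RingOfIntegers F)) =
          ν * ∑ j, M l j * x t j := by
        rw [Finset.mul_sum]
        refine Finset.sum_congr rfl fun j _ => ?_
        rw [one_mul, map_mul, map_intCast, show M0 l j = d (l, j) from rfl, hψd]
        ring
      rw [h2, abs_mul]
      exact mul_le_mul_of_nonneg_left (ht l) (abs_nonneg _))
  obtain ⟨y, hy, hfr⟩ := key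
  refine ⟨y, hy, hfr.mono fun t ht => ?_⟩
  simpa only [hmon, one_mul] using ht

lemma nd_lip (x y : ℝ) : |nd x - nd y| ≤ |x - y| := by
  rw [abs_sub_le_iff]
  constructor
  · have h1 := nd_add_le y (x - y)
    have e : y + (x - y) = x := by ring
    rw [e] at h1
    linarith
  · have h1 := nd_add_le x (y - x)
    have e : x + (y - x) = y := by ring
    rw [e, abs_sub_comm] at h1
    linarith

lemma nd_continuous : Continuous nd := by
  apply LipschitzWith.continuous (K := 1)
  apply LipschitzWith.of_dist_le_mul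
  intro x y
  rw [Real.dist_eq, Real.dist_eq]
  simpa using nd_lip x y

/-- products of truncated factors -/
lemma prod_max {ι : Type} (s : Finset ι) (f : ι → ℝ) {b L : ℝ} (hb : 0 ≤ b)
    (hL : 1 ≤ L) (hfL : ∀ i ∈ s, f i ≤ L) (hbL : b ≤ L) :
    ∏ i ∈ s, max (f i) b ≤ max (∏ i ∈ s, f i) (b * L ^ s.card) := by
  classical
  by_cases h : ∃ i ∈ s, f i ≤ b
  · obtain ⟨i, hi, hib⟩ := h
    refine le_max_of_le_right ?_
    rw [← Finset.mul_prod_erase s _ hi, max_eq_right hib]
    refine mul_le_mul_of_nonneg_left ?_ hb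
    calc ∏ j ∈ s.erase i, max (f j) b ≤ ∏ _j ∈ s.erase i, L := by
          refine Finset.prod_le_prod (fun j _ => le_max_of_le_right hb) fun j hj => ?_
          exact max_le (hfL j (Finset.mem_of_mem_erase hj)) hbL
      _ = L ^ (s.erase i).card := by rw [Finset.prod_const]
      _ ≤ L ^ s.card := pow_le_pow_right₀ hL (Finset.card_le_card (Finset.erase_subset _ _))
  · push Not at h
    refine le_max_of_le_left (le_of_eq ?_)
    exact Finset.prod_congr rfl fun i hi => max_eq_left (h i hi).le

/-- the sequence argument -/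
theorem sch_large {n : ℕ} {α : Fin n → ℝ} (hpos : ∀ i, 0 < α i) (halg : ∀ i, IsAlgebraic ℚ (α i))
    (hind : LinearIndependent ℚ α) {ε : ℝ} (hε : 0 < ε) (i0 : Fin n) :
    ∀ᶠ y : ℝ in atTop, (∀ i, nd (α i0 * y) ≤ nd (α i * y)) →
      y ^ (-1 - ε) ≤ ∏ i ∈ univ.erase i0, nd (α i * y) := by
  classical
  by_contra hcon
  rw [not_eventually] at hcon
  obtain ⟨y, hy, hP⟩ := Filter.exists_seq_forall_of_frequently hcon
  have hP1 : ∀ t i, nd (α i0 * y t) ≤ nd (α i * y t) := fun t => (Classical.not_imp.1 (hP t)).1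
  have hP2 : ∀ t, ∏ i ∈ univ.erase i0, nd (α i * y t) < y t ^ (-1 - ε) := fun t =>
    not_le.1 (Classical.not_imp.1 (hP t)).2
  have hn : 1 ≤ n := Nat.one_le_iff_ne_zero.2 fun h => by subst h; exact i0.elim0
  set x : ℕ → Fin n → ℤ := fun t l => round (α l * y t) with hxdef
  set L : ℝ := 1 + ∑ i, α i with hLdef
  have hLi : ∀ i, α i ≤ L := by
    intro i
    have := Finset.single_le_sum (f := α) (fun j _ => (hpos j).le) (Finset.mem_univ i)
    rw [hLdef]
    linarith
  have hL1 : 1 ≤ L := by
    have := Finset.sum_nonneg (s := univ) (f := α) (fun j _ => (hpos j).le)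
    rw [hLdef]
    linarith
  set M : Matrix (Fin n) (Fin n) ℝ := fun l j => if l = i0 then (if j = i0 then 1 else 0) else
    (if j = l then α i0 else 0) - (if j = i0 then α l else 0) with hM
  have hMsum : ∀ (v : Fin n → ℝ) (l : Fin n), ∑ j, M l j * v j =
      if l = i0 then v i0 else α i0 * v l - α l * v i0 := by
    intro v l
    rw [hM]
    by_cases h : l = i0
    · simp [h]
    · simp only [h, if_false, sub_mul, ite_mul, zero_mul, Finset.sum_sub_distrib,
        Finset.sum_ite_eq', Finset.mem_univ, if_true]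
  have hMalg : ∀ i j, IsAlgebraic ℚ (M i j) := by
    intro i j
    rw [hM]
    dsimp only
    split_ifs
    · exact isAlgebraic_one
    · exact isAlgebraic_zero
    · exact (halg i0).sub (halg i)
    · exact (halg i0).sub isAlgebraic_zero
    · exact isAlgebraic_zero.sub (halg i)
    · exact isAlgebraic_zero.sub isAlgebraic_zero
  have hMdet : M.det ≠ 0 := by
    intro h0
    obtain ⟨v, hv0, hv⟩ := Matrix.exists_mulVec_eq_zero_iff.2 h0
    apply hv0
    have h1 : ∀ l, ∑ j, M l j * v j = 0 := fun l => congrFun hv l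
    have h2 : v i0 = 0 := by
      have := h1 i0
      rw [hMsum] at this
      simpa using this
    funext l
    by_cases hl : l = i0
    · rw [hl, h2]; rfl
    · have := h1 l
      rw [hMsum, if_neg hl, h2, mul_zero, sub_zero] at this
      rcases mul_eq_zero.1 this with h3 | h3
      · exact absurd h3 (hpos i0).ne'
      · exact h3
  set A : ℕ → Fin n → ℝ := fun t l => if l = i0 then (L + 1) * y t else
    max (2 * L * nd (α l * y t)) (y t ^ (-(2 + ε))) with hA
  set X : ℕ → ℝ := fun t => Real.log (y t) with hX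
  have hXt : Tendsto X atTop atTop := Real.tendsto_log_atTop.comp hy
  have ev1 : ∀ᶠ t in atTop, 1 ≤ y t := hy.eventually_ge_atTop 1
  have ev2 : ∀ᶠ t in atTop, 1 / (2 * α i0) < y t := hy.eventually_gt_atTop _
  have ev3 : ∀ᶠ t in atTop, Real.log (L + 1) ≤ X t := hXt.eventually_ge_atTop _
  set K : ℝ := (L + 1) * (2 * L) ^ n with hK
  have hK0 : 0 < K := by rw [hK]; positivity
  have ev4 : ∀ᶠ t in atTop, Real.log K ≤ ε / 2 * X t :=
    (hXt.const_mul_atTop (by positivity : 0 < ε / 2)).eventually_ge_atTop _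
  have hApos : ∀ t, 1 ≤ y t → ∀ l, 0 < A t l := by
    intro t ht l
    rw [hA]
    dsimp only
    have : 0 < y t := by linarith
    split_ifs
    · positivity
    · exact lt_max_of_lt_right (by positivity)
  have hkey := sub_alg hn M hMalg hMdet X hXt (2 + ε) (ε / 2) (by positivity) x A
    (by
      filter_upwards [ev1, ev2] with t ht ht2 h0
      have h1 : x t i0 = 0 := by rw [h0]; rfl
      have h2 := nd_le_half (α i0 * y t)
      have h3 : nd (α i0 * y t) = |α i0 * y t - (x t i0 : ℤ)| := rfl
      rw [h3, h1, Int.cast_zero, sub_zero, abs_of_pos (mul_pos (hpos i0) (by linarith))] at h2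
      rw [div_lt_iff₀ (by have := hpos i0; positivity)] at ht2
      linarith)
    (by
      filter_upwards [ev1] with t ht l
      exact hApos t ht l)
    (by
      filter_upwards [ev1, ev3] with t ht h3 l
      have hy0 : 0 < y t := by linarith
      have hX0 : 0 ≤ X t := Real.log_nonneg ht
      rw [hA]
      dsimp only
      split_ifs with hl
      · rw [Real.log_mul (by positivity) hy0.ne', abs_of_nonneg
          (add_nonneg (Real.log_nonneg (by linarith)) hX0)]
        have : (2 + ε) * X t = 2 * X t + ε * X t := by ring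
        have h5 : 0 ≤ ε * X t := by positivity
        change Real.log (L + 1) + X t ≤ (2 + ε) * X t
        linarith
      · have hlow : y t ^ (-(2 + ε)) ≤ max (2 * L * nd (α l * y t)) (y t ^ (-(2 + ε))) :=
          le_max_right _ _
        have hup : max (2 * L * nd (α l * y t)) (y t ^ (-(2 + ε))) ≤ L + 1 := by
          refine max_le ?_ ?_
          · have := nd_le_half (α l * y t)
            nlinarith
          · have : y t ^ (-(2 + ε)) ≤ 1 := Real.rpow_le_one_of_one_le_of_nonpos ht (by linarith)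
            linarith
        have hp : 0 < y t ^ (-(2 + ε)) := by positivity
        rw [abs_le]
        constructor
        · have := Real.log_le_log hp hlow
          rw [Real.log_rpow hy0] at this
          change -((2 + ε) * X t) ≤ _
          have e : -((2 + ε) * X t) = -(2 + ε) * Real.log (y t) := by rw [hX]; ring
          rw [e]
          exact this
        · have h5 : 0 ≤ (1 + ε) * X t := by positivity
          calc Real.log (max (2 * L * nd (α l * y t)) (y t ^ (-(2 + ε)))) ≤ Real.log (L + 1) :=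
                Real.log_le_log (lt_of_lt_of_le hp hlow) hup
            _ ≤ X t := h3
            _ ≤ (2 + ε) * X t := by nlinarith)
    (by
      filter_upwards [ev1, ev4] with t ht h4
      have hy0 : 0 < y t := by linarith
      have hX0 : 0 ≤ X t := Real.log_nonneg ht
      rw [← Real.log_prod fun l _ => (hApos t ht l).ne']
      have h1 : ∏ l, A t l = ((L + 1) * y t) *
          ∏ l ∈ univ.erase i0, max (2 * L * nd (α l * y t)) (y t ^ (-(2 + ε))) := by
        rw [← Finset.mul_prod_erase univ _ (Finset.mem_univ i0)]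
        rw [hA]
        dsimp only
        rw [if_pos rfl]
        congr 1
        refine Finset.prod_congr rfl fun l hl => ?_
        rw [if_neg (Finset.ne_of_mem_erase hl)]
      have hb1 : y t ^ (-(2 + ε)) ≤ 1 := Real.rpow_le_one_of_one_le_of_nonpos ht (by linarith)
      have hb0 : 0 < y t ^ (-(2 + ε)) := by positivity
      have h2 := prod_max (univ.erase i0) (fun l => 2 * L * nd (α l * y t)) hb0.le hL1
        (fun l _ => by have := nd_le_half (α l * y t); nlinarith) (hb1.trans hL1)
      have hcard : (univ.erase i0).card ≤ n := by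
        calc _ ≤ (univ : Finset (Fin n)).card := Finset.card_le_card (Finset.erase_subset _ _)
          _ = n := by simp
      have h2L : 1 ≤ 2 * L := by linarith
      have h3 : max (∏ l ∈ univ.erase i0, (2 * L * nd (α l * y t)))
          (y t ^ (-(2 + ε)) * L ^ (univ.erase i0).card) ≤ (2 * L) ^ n * y t ^ (-1 - ε) := by
        refine max_le ?_ ?_
        · rw [Finset.prod_mul_distrib, Finset.prod_const]
          refine mul_le_mul (pow_le_pow_right₀ h2L hcard) (hP2 t).le
            (Finset.prod_nonneg fun i _ => nd_nonneg _) (by positivity)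
        · rw [mul_comm]
          refine mul_le_mul ?_ ?_ hb0.le (by positivity)
          · calc L ^ (univ.erase i0).card ≤ L ^ n := pow_le_pow_right₀ hL1 hcard
              _ ≤ (2 * L) ^ n := pow_le_pow_left₀ (by linarith) (by linarith) n
          · exact Real.rpow_le_rpow_of_exponent_le ht (by linarith)
      have h4' : ∏ l, A t l ≤ K * y t ^ (-ε) := by
        rw [h1]
        calc _ ≤ ((L + 1) * y t) * ((2 * L) ^ n * y t ^ (-1 - ε)) :=
              mul_le_mul_of_nonneg_left (h2.trans h3) (by positivity)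
          _ = K * (y t * y t ^ (-1 - ε)) := by rw [hK]; ring
          _ = K * y t ^ (-ε) := by
              congr 1
              nth_rewrite 1 [← Real.rpow_one (y t)]
              rw [← Real.rpow_add hy0]
              congr 1
              ring
      have h5 : Real.log (∏ l, A t l) ≤ Real.log K + -ε * X t := by
        refine (Real.log_le_log (Finset.prod_pos fun l _ => hApos t ht l) h4').trans ?_
        rw [Real.log_mul hK0.ne' (by positivity), Real.log_rpow hy0]
      nlinarith)
    (by
      filter_upwards [ev1] with t ht l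
      have hy0 : 0 < y t := by linarith
      rw [hMsum (fun j => (x t j : ℝ)) l, hA]
      dsimp only
      have hd : ∀ l, |α l * y t - x t l| = nd (α l * y t) := fun l => rfl
      split_ifs with hl
      · have h1 := hd i0
        have h2 := nd_le_half (α i0 * y t)
        have h3 : |(x t i0 : ℝ)| ≤ |α i0 * y t| + |α i0 * y t - x t i0| := by
          have := abs_sub_abs_le_abs_sub (x t i0 : ℝ) (α i0 * y t)
          rw [abs_sub_comm (x t i0 : ℝ)] at this
          linarith
        rw [abs_of_pos (mul_pos (hpos i0) hy0), h1] at h3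
        have := hLi i0
        nlinarith
      · refine le_max_of_le_left ?_
        have e : α i0 * x t l - α l * x t i0 =
            α l * (α i0 * y t - x t i0) - α i0 * (α l * y t - x t l) := by ring
        rw [e]
        have h1 := hP1 t l
        have hn0 := nd_nonneg (α l * y t)
        calc |α l * (α i0 * y t - x t i0) - α i0 * (α l * y t - x t l)|
            ≤ |α l * (α i0 * y t - x t i0)| + |α i0 * (α l * y t - x t l)| := abs_sub _ _
          _ = α l * nd (α i0 * y t) + α i0 * nd (α l * y t) := by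
              rw [abs_mul, abs_mul, hd, hd, abs_of_pos (hpos l), abs_of_pos (hpos i0)]
          _ ≤ L * nd (α l * y t) + L * nd (α l * y t) := by
              refine add_le_add ?_ ?_
              · exact mul_le_mul (hLi l) h1 (nd_nonneg _) (by linarith)
              · exact mul_le_mul_of_nonneg_right (hLi i0) hn0
          _ = 2 * L * nd (α l * y t) := by ring)
  obtain ⟨z, hz0, hfr⟩ := hkey
  -- the relation gives a contradiction
  have hne : ∑ l, (z l : ℝ) * α l ≠ 0 := by
    intro h0
    have h1 := Fintype.linearIndependent_iff.1 hind (fun l => (z l : ℚ)) (by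
      rw [← h0]
      refine Finset.sum_congr rfl fun l _ => ?_
      rw [Rat.smul_def]
      push_cast
      ring)
    apply hz0
    funext l
    have := h1 l
    exact_mod_cast this
  have hB : ∀ᶠ t in atTop, ∑ l, |(z l : ℝ)| < |∑ l, (z l : ℝ) * α l| * y t :=
    (hy.const_mul_atTop (abs_pos.2 hne)).eventually_gt_atTop _
  obtain ⟨t, ht1, ht2, ht3⟩ := (hfr.and_eventually (hB.and ev1)).exists
  have hy0 : 0 < y t := by linarith
  have ht1' : ∑ l, (z l : ℝ) * x t l = 0 := by exact_mod_cast ht1
  have h1 : (∑ l, (z l : ℝ) * α l) * y t = ∑ l, (z l : ℝ) * (α l * y t - x t l) := by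
    have : ∑ l, (z l : ℝ) * (α l * y t - x t l) =
        (∑ l, (z l : ℝ) * α l) * y t - ∑ l, (z l : ℝ) * x t l := by
      rw [Finset.sum_mul, ← Finset.sum_sub_distrib]
      exact Finset.sum_congr rfl fun l _ => by ring
    rw [this, ht1', sub_zero]
  have h2 : |∑ l, (z l : ℝ) * α l| * y t ≤ ∑ l, |(z l : ℝ)| := by
    rw [← abs_of_pos hy0, ← abs_mul, h1]
    refine (Finset.abs_sum_le_sum_abs _ _).trans (Finset.sum_le_sum fun l _ => ?_)
    rw [abs_mul]
    have h3 := nd_le_half (α l * y t)
    have h4 : |α l * y t - x t l| = nd (α l * y t) := rfl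
    rw [h4]
    have h5 := abs_nonneg (z l : ℝ)
    nlinarith
  linarith

/-- two independent weights have no common integer multiple point -/
lemma pos_of_ind {n : ℕ} {α : Fin n → ℝ} (hpos : ∀ i, 0 < α i)
    (hind : LinearIndependent ℚ α) {i j : Fin n} (hij : i ≠ j) {y : ℝ} (hy : 0 < y)
    (h1 : nd (α i * y) = 0) (h2 : nd (α j * y) = 0) : False := by
  have e1 : α i * y = (round (α i * y) : ℤ) := by
    have := abs_eq_zero.1 h1
    linarith
  have e2 : α j * y = (round (α j * y) : ℤ) := by
    have := abs_eq_zero.1 h2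
    linarith
  set p : ℤ := round (α i * y) with hp
  set q : ℤ := round (α j * y) with hq
  have hq0 : (q : ℝ) ≠ 0 := by rw [← e2]; exact (mul_pos (hpos j) hy).ne'
  have hrel : (q : ℝ) * α i - p * α j = 0 := by
    have : ((q : ℝ) * α i - p * α j) * y = 0 := by
      have e3 : ((q : ℝ) * α i - p * α j) * y = q * (α i * y) - p * (α j * y) := by ring
      rw [e3, e1, e2]
      ring
    rcases mul_eq_zero.1 this with h | h
    · exact h
    · exact absurd h hy.ne'
  have h3 := Fintype.linearIndependent_iff.1 hind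
    (fun l => (if l = i then (q : ℚ) else 0) - (if l = j then (p : ℚ) else 0)) (by
      simp only [sub_smul, ite_smul, zero_smul, Finset.sum_sub_distrib, Finset.sum_ite_eq',
        Finset.mem_univ, if_true, Rat.smul_def]
      push_cast
      exact hrel) i
  rw [if_pos rfl, if_neg hij, sub_zero] at h3
  exact hq0 (by exact_mod_cast h3)

/-- the lower bound for all `y ≥ y₀` -/
theorem sch_fin {n : ℕ} {α : Fin n → ℝ} (hpos : ∀ i, 0 < α i) (halg : ∀ i, IsAlgebraic ℚ (α i))
    (hind : LinearIndependent ℚ α) {ε : ℝ} (hε : 0 < ε) (i0 : Fin n) {y₀ : ℝ} (hy₀ : 0 < y₀) :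
    ∃ c : ℝ, 0 < c ∧ ∀ y : ℝ, y₀ ≤ y → (∀ i, nd (α i0 * y) ≤ nd (α i * y)) →
      c * y ^ (-1 - ε) ≤ ∏ i ∈ univ.erase i0, nd (α i * y) := by
  classical
  obtain ⟨Y, hY⟩ := eventually_atTop.1 (sch_large hpos halg hind hε i0)
  set g : ℝ → ℝ := fun y => ∏ i ∈ univ.erase i0, max (nd (α i * y)) (nd (α i0 * y)) with hg
  have hgc : Continuous g := by
    rw [hg]
    refine continuous_finsetProd _ fun i _ => ?_
    exact (nd_continuous.comp (continuous_const.mul continuous_id)).max
      (nd_continuous.comp (continuous_const.mul continuous_id))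
  have hgp : ∀ y, 0 < y → 0 < g y := by
    intro y hy
    rw [hg]
    refine Finset.prod_pos fun i hi => ?_
    have h0 := nd_nonneg (α i * y)
    have h1 := nd_nonneg (α i0 * y)
    by_contra hcon
    have h2 := max_le_iff.1 (not_lt.1 hcon)
    exact pos_of_ind hpos hind (Finset.ne_of_mem_erase hi) hy (le_antisymm h2.1 h0)
      (le_antisymm h2.2 h1)
  obtain ⟨y₁, hy₁, hmin⟩ := isCompact_Icc.exists_isMinOn
    (⟨y₀, ⟨le_rfl, le_max_left _ _⟩⟩ : (Set.Icc y₀ (max y₀ Y)).Nonempty) hgc.continuousOn
  have hc₁ : 0 < g y₁ := hgp y₁ (lt_of_lt_of_le hy₀ hy₁.1)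
  refine ⟨min 1 (g y₁ * y₀ ^ (1 + ε)), lt_min one_pos (by positivity), fun y hy hH => ?_⟩
  have hy0 : 0 < y := lt_of_lt_of_le hy₀ hy
  have hp : 0 < y ^ (-1 - ε) := by positivity
  rcases le_total Y y with h | h
  · exact (mul_le_of_le_one_left hp.le (min_le_left _ _)).trans (hY y h hH)
  · have h1 : g y₁ ≤ g y := hmin ⟨hy, h.trans (le_max_right _ _)⟩
    have h2 : g y = ∏ i ∈ univ.erase i0, nd (α i * y) := by
      rw [hg]
      exact Finset.prod_congr rfl fun i _ => max_eq_left (hH i)
    rw [← h2]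
    refine le_trans ?_ h1
    have h3 : y ^ (-1 - ε) ≤ y₀ ^ (-1 - ε) :=
      Real.rpow_le_rpow_of_nonpos hy₀ hy (by linarith)
    calc min 1 (g y₁ * y₀ ^ (1 + ε)) * y ^ (-1 - ε) ≤ (g y₁ * y₀ ^ (1 + ε)) * y₀ ^ (-1 - ε) := by
          refine mul_le_mul (min_le_right _ _) h3 hp.le (by positivity)
      _ = g y₁ * (y₀ ^ (1 + ε) * y₀ ^ (-1 - ε)) := by ring
      _ = g y₁ := by
          rw [← Real.rpow_add hy₀]
          have : 1 + ε + (-1 - ε) = 0 := by ring
          rw [this, Real.rpow_zero, mul_one]

/-- the lower bound for a set of independent weights -/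
theorem sch_set {r : ℕ} {w : Fin r → ℝ} (hw : ∀ i, 0 < w i) {μ : ℝ} (hμ : 0 < μ)
    (halg : ∀ i, IsAlgebraic ℚ (w i / μ)) {ε : ℝ} (hε : 0 < ε) (s : Finset (Fin r))
    (hs : LinearIndepOn ℚ w (s : Set (Fin r))) (i0 : Fin r) (hi0 : i0 ∈ s) :
    ∃ c : ℝ, 0 < c ∧ ∀ y : ℝ, 1 ≤ y → (∀ i ∈ s, nd (w i0 * y) ≤ nd (w i * y)) →
      c * y ^ (-1 - ε) ≤ ∏ i ∈ s.erase i0, nd (w i * y) := by
  classical
  set e : Fin s.card ≃ s := s.equivFin.symm with he
  set α : Fin s.card → ℝ := fun k => w (e k) / μ with hα
  have hpos : ∀ k, 0 < α k := fun k => div_pos (hw _) hμ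
  have hind : LinearIndependent ℚ α := by
    have h1 : LinearIndependent ℚ (fun k => w (e k)) := by
      have h2 : LinearIndependent ℚ (fun x : (s : Set (Fin r)) => w x) := hs
      exact h2.comp (fun k => (⟨(e k : Fin r), (e k).2⟩ : (s : Set (Fin r)))) (by
        intro a b hab
        apply e.injective
        have := congrArg Subtype.val hab
        exact Subtype.ext this)
    rw [Fintype.linearIndependent_iff] at h1 ⊢
    intro g hg
    apply h1 g
    have h3 : ∑ k, g k • w (e k) = (∑ k, g k • α k) * μ := by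
      rw [Finset.sum_mul]
      refine Finset.sum_congr rfl fun k _ => ?_
      rw [hα]
      simp only [Rat.smul_def]
      field_simp
    rw [h3, hg, zero_mul]
  obtain ⟨k0, hk0⟩ := e.surjective ⟨i0, hi0⟩
  obtain ⟨c, hc, hb⟩ := sch_fin hpos (fun k => halg _) hind hε k0 hμ
  refine ⟨c * μ ^ (-1 - ε), by positivity, fun y hy hH => ?_⟩
  have hk0' : (e k0 : Fin r) = i0 := by rw [hk0]
  have hval : ∀ k, α k * (μ * y) = w (e k) * y := by
    intro k
    rw [hα]
    field_simp
  have h1 := hb (μ * y) (le_mul_of_one_le_right hμ.le hy) (fun k => by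
    rw [hval, hval, hk0']
    exact hH _ (e k).2)
  have h2 : ∏ k ∈ univ.erase k0, nd (α k * (μ * y)) = ∏ i ∈ s.erase i0, nd (w i * y) := by
    refine Finset.prod_bij (fun k _ => (e k : Fin r)) ?_ ?_ ?_ ?_
    · intro k hk
      refine Finset.mem_erase.2 ⟨?_, (e k).2⟩
      intro h
      apply Finset.ne_of_mem_erase hk
      apply e.injective
      apply Subtype.ext
      rw [h, hk0']
    · intro a _ b _ hab
      exact e.injective (Subtype.ext hab)
    · intro i hi
      obtain ⟨k, hk⟩ := e.surjective ⟨i, Finset.mem_of_mem_erase hi⟩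
      refine ⟨k, Finset.mem_erase.2 ⟨?_, Finset.mem_univ _⟩, by rw [hk]⟩
      intro h
      apply Finset.ne_of_mem_erase hi
      rw [← hk0', ← h, hk]
    · intro k _
      rw [hval]
  rw [h2] at h1
  refine le_trans (le_of_eq ?_) h1
  rw [Real.mul_rpow hμ.le (by linarith)]
  ring

/-- the lower bound, uniformly in the set of weights -/
theorem sch_all {r : ℕ} {w : Fin r → ℝ} (hw : ∀ i, 0 < w i) {μ : ℝ} (hμ : 0 < μ)
    (halg : ∀ i, IsAlgebraic ℚ (w i / μ)) {ε : ℝ} (hε : 0 < ε) :
    ∃ c : ℝ, 0 < c ∧ ∀ (s : Finset (Fin r)), LinearIndepOn ℚ w (s : Set (Fin r)) →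
      ∀ i0 ∈ s, ∀ y : ℝ, 1 ≤ y → (∀ i ∈ s, nd (w i0 * y) ≤ nd (w i * y)) →
      c * y ^ (-1 - ε) ≤ ∏ i ∈ s.erase i0, nd (w i * y) := by
  classical
  have h : ∀ p : Finset (Fin r) × Fin r, ∃ c : ℝ, 0 < c ∧
      (LinearIndepOn ℚ w (p.1 : Set (Fin r)) → p.2 ∈ p.1 →
      ∀ y : ℝ, 1 ≤ y → (∀ i ∈ p.1, nd (w p.2 * y) ≤ nd (w i * y)) →
      c * y ^ (-1 - ε) ≤ ∏ i ∈ p.1.erase p.2, nd (w i * y)) := by
    intro p
    by_cases h1 : LinearIndepOn ℚ w (p.1 : Set (Fin r)) ∧ p.2 ∈ p.1
    · obtain ⟨c, hc, hb⟩ := sch_set hw hμ halg hε p.1 h1.1 p.2 h1.2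
      exact ⟨c, hc, fun _ _ => hb⟩
    · exact ⟨1, one_pos, fun h2 h3 => absurd ⟨h2, h3⟩ h1⟩
  choose c hc hb using h
  obtain ⟨c', hc', hle⟩ : ∃ c' : ℝ, 0 < c' ∧ ∀ p, c' ≤ c p := by
    by_cases hne : Nonempty (Finset (Fin r) × Fin r)
    · refine ⟨univ.inf' Finset.univ_nonempty c, ?_, fun p => Finset.inf'_le _ (Finset.mem_univ p)⟩
      rw [Finset.lt_inf'_iff]
      exact fun p _ => hc p
    · exact ⟨1, one_pos, fun p => absurd ⟨p⟩ hne⟩
  refine ⟨c', hc', fun s hs i0 hi0 y hy hH => ?_⟩
  refine le_trans ?_ (hb (s, i0) hs hi0 y hy hH)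
  exact mul_le_mul_of_nonneg_right (hle _) (by positivity)

end Pool.Agent.T6.H49.BZ
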